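import Pool.Agent.K4H54.CZ2.Frb

/-!
# Sign kernels: conference matrices modulo 4, and the class functions of odd kernels
-/

set_option autoImplicit false

open scoped Classical

namespace Pool.Agent.K4H54.CZ2

open Pool.Agent.Q11.CZ Matrix

variable {G : Type*} [Group G] {c : G}
variable {X : Type*} [Fintype X] [MulAction G X]

lemma half_free {Φ : Finset X} (hΦ : IsHalf c Φ) (x : X) : c • x ≠ x := by
  intro hx
  have := hΦ x
  rw [hx] at this
  tauto

lemma half_sum (hc2 : c * c = 1) {Φ : Finset X} (hΦ : IsHalf c Φ) (f : X → ℤ)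
    (hf : ∀ x, f (c • x) = f x) : ∑ x, f x = 2 * ∑ x ∈ Φ, f x := by
  rw [← Finset.sum_add_sum_compl Φ, two_mul]
  congr 1
  refine Finset.sum_bij' (fun x _ => c • x) (fun x _ => c • x) ?_ ?_ ?_ ?_ ?_
  · intro x hx
    rw [Finset.mem_compl] at hx
    exact (hΦ x).mpr hx
  · intro x hx
    rw [Finset.mem_compl, hΦ]
    exact not_not.mpr hx
  · intro x _; exact ccx hc2 x
  · intro x _; exact ccx hc2 x
  · intro x _; exact (hf x).symm

lemma half_card (hc2 : c * c = 1) {Φ : Finset X} (hΦ : IsHalf c Φ) :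
    (Fintype.card X : ℤ) = 2 * Φ.card := by
  have := half_sum hc2 hΦ (fun _ => 1) (fun _ => rfl)
  simpa using this

lemma half_ne (hc2 : c * c = 1) {Φ : Finset X} (hΦ : IsHalf c Φ) {x y : X} (hx : x ∈ Φ)
    (hy : y ∈ Φ) : y ≠ c • x := by
  rintro rfl
  exact ((hΦ x).mp hy) hx

theorem conf_mod (hc : ∀ g, c * g = g * c) (hc2 : c * c = 1) {Φ : Finset X} (hΦ : IsHalf c Φ)
    {A : Matrix X X ℤ} (hA : SK c A) {e : ℤ} (hee : e * e = 1)
    (he : ∀ x y, A y x = e * A x y)
    (hsq : A * A = (e * (Fintype.card X - 2)) • E0 c) (hn : 3 ≤ Φ.card) :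
    (e = 1 → Φ.card % 4 = 2) ∧ (e = -1 → Φ.card % 4 = 0) := by
  have hS : ∀ u v : X, u ∈ Φ → v ∈ Φ →
      ∑ w ∈ Φ, A u w * A v w = if u = v then (Φ.card : ℤ) - 1 else 0 := by
    intro u v hu hv
    have h1 := half_sum hc2 hΦ (fun w => A u w * A v w) (fun w => by simp only [hA.odd]; ring)
    have h2 : (A * A) u v = e * ∑ w, A u w * A v w := by
      rw [Matrix.mul_apply, Finset.mul_sum]
      refine Finset.sum_congr rfl fun w _ => ?_
      rw [he v w]; ring
    rw [hsq, Matrix.smul_apply, smul_eq_mul, E0_apply, if_neg (half_ne hc2 hΦ hv hu),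
      half_card hc2 hΦ, sub_zero] at h2
    have h3 : ∑ w, A u w * A v w = (2 * (Φ.card : ℤ) - 2) * (if u = v then 1 else 0) := by
      have h4 : e * (e * (2 * (Φ.card : ℤ) - 2) * (if u = v then 1 else 0)) =
        e * (e * ∑ w, A u w * A v w) := by rw [h2]
      have h5 : e * (e * ∑ w, A u w * A v w) = ∑ w, A u w * A v w := by
        rw [← mul_assoc, hee, one_mul]
      rw [h5] at h4
      rw [← h4]
      linear_combination ((2 * (Φ.card : ℤ) - 2) * (if u = v then 1 else 0)) * hee
    rw [h3] at h1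
    split_ifs with h
    · rw [if_pos h] at h1; linarith
    · rw [if_neg h] at h1; linarith
  obtain ⟨x, hx, y, hy, z, hz, hxy, hxz, hyz⟩ := Finset.two_lt_card.mp (show 2 < Φ.card by omega)
  set f : X → ℤ := fun w => (A x w + A y w) * (A x w + A z w) with hf
  have hfsum : ∑ w ∈ Φ, f w = (Φ.card : ℤ) - 1 := by
    have h1 : ∑ w ∈ Φ, f w = ∑ w ∈ Φ, A x w * A x w + ∑ w ∈ Φ, A x w * A z w +
        ∑ w ∈ Φ, A y w * A x w + ∑ w ∈ Φ, A y w * A z w := by
      rw [← Finset.sum_add_distrib, ← Finset.sum_add_distrib, ← Finset.sum_add_distrib]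
      refine Finset.sum_congr rfl fun w _ => ?_
      simp only [hf]; ring
    rw [h1, hS x x hx hx, hS x z hx hz, hS y x hy hx, hS y z hy hz, if_pos rfl, if_neg hxz,
      if_neg hxy.symm, if_neg hyz]
    ring
  have hsplit : ∑ w ∈ Φ, f w = f x + f y + f z + ∑ w ∈ Φ \ {x, y, z}, f w := by
    have hsub : ({x, y, z} : Finset X) ⊆ Φ := by
      intro w hw
      simp only [Finset.mem_insert, Finset.mem_singleton] at hw
      rcases hw with rfl | rfl | rfl <;> assumption
    rw [← Finset.sum_sdiff hsub, Finset.sum_insert (by simp [hxy, hxz]),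
      Finset.sum_insert (by simp [hyz]), Finset.sum_singleton]
    ring
  have hdvd : (4 : ℤ) ∣ ∑ w ∈ Φ \ {x, y, z}, f w := by
    refine Finset.dvd_sum fun w hw => ?_
    simp only [Finset.mem_sdiff, Finset.mem_insert, Finset.mem_singleton, not_or] at hw
    obtain ⟨hw, hwx, hwy, hwz⟩ := hw
    simp only [hf]
    rcases hA.sgn x w hwx (half_ne hc2 hΦ hx hw) with h1 | h1 <;>
      rcases hA.sgn y w hwy (half_ne hc2 hΦ hy hw) with h2 | h2 <;>
      rcases hA.sgn z w hwz (half_ne hc2 hΦ hz hw) with h3 | h3 <;>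
      rw [h1, h2, h3] <;> norm_num
  obtain ⟨t, ht⟩ := hdvd
  rw [hfsum, ht] at hsplit
  simp only [hf] at hsplit
  rw [he x y, he x z, hA.diag, hA.diag, hA.diag, he y z] at hsplit
  have hp := hA.sgn x y hxy.symm (half_ne hc2 hΦ hx hy)
  have hq := hA.sgn y z hyz.symm (half_ne hc2 hΦ hy hz)
  have hr := hA.sgn x z hxz.symm (half_ne hc2 hΦ hx hz)
  constructor
  · intro he1
    rw [he1] at hsplit
    rcases hp with hp | hp <;> rcases hq with hq | hq <;> rcases hr with hr | hr <;>
      rw [hp, hq, hr] at hsplit <;> omega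
  · intro he1
    rw [he1] at hsplit
    rcases hp with hp | hp <;> rcases hq with hq | hq <;> rcases hr with hr | hr <;>
      rw [hp, hq, hr] at hsplit <;> omega

lemma sk_zero (hc2 : c * c = 1) {Φ : Finset X} (hΦ : IsHalf c Φ) {A : Matrix X X ℤ}
    (hA : SK c A) (hn : Φ.card ≤ 1) : A = 0 := by
  ext x y
  rw [Matrix.zero_apply]
  by_cases h1 : y = x
  · rw [h1, hA.diag]
  by_cases h2 : y = c • x
  · rw [h2, hA.diagc hc2]
  exfalso
  have h3 : ({x, c • x, y} : Finset X).card ≤ Fintype.card X := Finset.card_le_univ _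
  have h4 : ({x, c • x, y} : Finset X).card = 3 := by
    rw [Finset.card_insert_of_notMem, Finset.card_pair (Ne.symm h2)]
    simp only [Finset.mem_insert, Finset.mem_singleton, not_or]
    exact ⟨(half_free hΦ x).symm, Ne.symm h1⟩
  have h5 := half_card hc2 hΦ
  omega

lemma frob_zero : Frob (0 : Matrix X X ℤ) := by
  refine ⟨0, fun p _ hpp => ?_⟩
  have : (0 : Matrix X X ℤ).map (Int.castRingHom (ZMod p)) = 0 := by
    ext x y; simp
  rw [this, zero_pow hpp.ne_zero]

lemma sk_cube (hc2 : c * c = 1) {A : Matrix X X ℤ} (hA : SK c A) {b e N : ℤ}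
    (h : A * A = b • A + (e * (N - 2)) • E0 c) :
    A * A * A = b • (A * A) + (2 * (e * (N - 2))) • A := by
  have h1 : A * A * A = A * (A * A) := Matrix.mul_assoc _ _ _
  rw [h1]
  conv_lhs => rw [h]
  rw [Matrix.mul_add, Matrix.mul_smul, Matrix.mul_smul, mul_E0 hc2 hA.toOI, smul_smul, mul_comm
    (e * (N - 2)) 2]

theorem frob_sk_sym (hc : ∀ g, c * g = g * c) (hc2 : c * c = 1) {Φ : Finset X}
    (hΦ : IsHalf c Φ) (hDT : DT X c) {A : Matrix X X ℤ} (hA : SK c A)
    (he : ∀ x y, A y x = A x y) (hn : Φ.card % 4 = 2 → IsSquare ((Φ.card : ℤ) - 1)) : Frob A := by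
  by_cases hn1 : Φ.card ≤ 1
  · rw [sk_zero hc2 hΦ hA hn1]; exact frob_zero
  push Not at hn1
  have hN := half_card hc2 hΦ
  have he1 : ∀ x y, A y x = 1 * A x y := fun x y => by rw [he x y, one_mul]
  obtain ⟨b, hb⟩ := sk_sq hc hc2 (half_free hΦ) hDT hA he1
  have h3 := sk_cube hc2 hA hb
  rw [hN] at h3
  have hm : (2 * (1 * (2 * (Φ.card : ℤ) - 2))) ≠ 0 := by omega
  by_cases hb0 : b = 0
  · subst hb0
    have hsq : IsSquare ((Φ.card : ℤ) - 1) := by
      by_cases hn2 : Φ.card = 2
      · rw [hn2]; exact ⟨1, by norm_num⟩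
      · apply hn
        refine (conf_mod hc hc2 hΦ hA (e := 1) (by norm_num) he1 ?_ (by omega)).1 rfl
        rw [hb, zero_smul, zero_add]
    obtain ⟨r, hr⟩ := hsq
    refine frob_of_square A 0 _ (4 * r) hm ?_ ?_ h3
    · intro h0
      have : r = 0 := by omega
      rw [this] at hr
      omega
    · linear_combination 16 * hr
  · have htr : trace A = 0 := by
      simp only [trace, Matrix.diag, hA.diag, Finset.sum_const_zero]
    have htr2 : trace (A * A) = (Fintype.card X : ℤ) * (1 * (Fintype.card X - 2)) := by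
      simp only [trace, Matrix.diag, sk_diag hc2 (half_free hΦ) hA he1, Finset.sum_const,
        Finset.card_univ, nsmul_eq_mul]
    have hT : (Fintype.card X : ℤ) * (1 * (Fintype.card X - 2)) ≠ 0 := by
      rw [hN]
      apply mul_ne_zero <;> omega
    have hd : 0 < b * b + 4 * (2 * (1 * (2 * (Φ.card : ℤ) - 2))) := by
      have : 0 ≤ b * b := mul_self_nonneg b
      have h9 : (2 : ℤ) ≤ Φ.card := by exact_mod_cast hn1
      linarith
    obtain ⟨s, hs⟩ := disc_isSquare A b _ _ h3 htr htr2 hT hb0 hm hd.le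
    refine frob_of_square A b _ s hm ?_ hs h3
    rintro rfl
    rw [mul_zero] at hs
    exact hd.ne' hs

theorem frob_sk_anti (hc : ∀ g, c * g = g * c) (hc2 : c * c = 1) {Φ : Finset X}
    (hΦ : IsHalf c Φ) (hDT : DT X c) {A : Matrix X X ℤ} (hA : SK c A)
    (he : ∀ x y, A y x = - A x y) (hn : Φ.card % 4 ≠ 0) (hn2 : Φ.card ≠ 2) : Frob A := by
  by_cases hn1 : Φ.card ≤ 1
  · rw [sk_zero hc2 hΦ hA hn1]; exact frob_zero
  push Not at hn1
  exfalso
  have he1 : ∀ x y, A y x = (-1) * A x y := fun x y => by rw [he x y, neg_one_mul]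
  obtain ⟨b, hb⟩ := sk_sq hc hc2 (half_free hΦ) hDT hA he1
  have hb0 : b = 0 := by
    by_contra hb0
    obtain ⟨x, hx, y, hy, hxy⟩ := Finset.one_lt_card.mp hn1
    have h1 : ∀ u v : X, (A * A) u v = (A * A) v u := by
      intro u v
      simp only [Matrix.mul_apply]
      refine Finset.sum_congr rfl fun w _ => ?_
      rw [he w u, he v w]; ring
    have h2 := h1 x y
    rw [hb] at h2
    simp only [Matrix.add_apply, Matrix.smul_apply, E0_apply, smul_eq_mul] at h2
    rw [if_neg hxy, if_neg hxy.symm, if_neg (half_ne hc2 hΦ hy hx),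
      if_neg (half_ne hc2 hΦ hx hy), he x y] at h2
    have h3 : b * A x y = 0 := by linarith
    rcases mul_eq_zero.mp h3 with h4 | h4
    · exact hb0 h4
    · rcases hA.sgn x y hxy.symm (half_ne hc2 hΦ hx hy) with h5 | h5 <;> omega
  apply hn
  refine (conf_mod hc hc2 hΦ hA (e := -1) (by norm_num) he1 ?_ (by omega)).2 rfl
  rw [hb, hb0, zero_smul, zero_add]

lemma oi_E0 (hc : ∀ g, c * g = g * c) (hc2 : c * c = 1) : OI c (E0 c : Matrix X X ℤ) := by
  constructor
  · intro g x y
    rw [E0_apply, E0_apply, ← cg hc]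
    simp only [smul_left_cancel_iff]
  · intro x y
    rw [E0_apply, E0_apply, ccx hc2]
    ring

lemma frob_E0 (hc : ∀ g, c * g = g * c) (hc2 : c * c = 1) : Frob (E0 c : Matrix X X ℤ) := by
  have h1 : (E0 c : Matrix X X ℤ) * E0 c = (2 : ℤ) • E0 c := mul_E0 hc2 (oi_E0 hc hc2)
  refine frob_of_cubic _ 2 (-2) (by norm_num) (by norm_num) (by norm_num) ?_
  rw [h1, Matrix.smul_mul, h1]
  module

lemma D_add (M N : Matrix X X ℤ) (a b : ℤ) (g : G) :
    D (a • M + b • N) g = a * D M g + b * D N g := by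
  simp only [D, Matrix.add_apply, Matrix.smul_apply, smul_eq_mul, Finset.sum_add_distrib,
    Finset.mul_sum]

/-- decomposition of an odd kernel -/
theorem decomp (hc : ∀ g, c * g = g * c) (hc2 : c * c = 1) (hDT : DT X c)
    {k : Matrix X X ℤ} (hk : OI c k) :
    ∃ d κ : ℤ, (κ = 0 ∧ k = d • E0 c) ∨ (κ ≠ 0 ∧ ∃ A, SK c A ∧ k = d • E0 c + κ • A) := by
  obtain ⟨κ, hκ⟩ := const_of (B := fun x y => |k x y|) hc hc2 hDT
    (fun g x y => by simp only [hk.inv]) (fun x y => by simp only [hk.oddl hc2, abs_neg])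
    (fun x y => by simp only [hk.odd, abs_neg])
  have hd : ∃ d : ℤ, ∀ x, k x x = d := by
    by_cases hX : Nonempty X
    swap
    · exact ⟨0, fun x => absurd ⟨x⟩ hX⟩
    obtain ⟨x0⟩ := hX
    refine ⟨k x0 x0, fun x => ?_⟩
    by_cases h1 : x = x0
    · rw [h1]
    by_cases h2 : x = c • x0
    · rw [h2, hk.inv]
    have h3 : x0 ≠ c • x := by
      rintro rfl
      exact h2 (ccx hc2 x).symm
    obtain ⟨g, h4, -⟩ := hDT x0 x x x0 h1 h2 (Ne.symm h1) h3
    rw [← hk.inv g x0 x0]
    rcases h4 with h4 | h4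
    · rw [h4]
    · rw [h4, hk.inv]
  obtain ⟨d, hd⟩ := hd
  have hkc : ∀ x, k x (c • x) = - d := fun x => by rw [hk.odd, hd]
  have hE : ∀ x y : X, (d • (E0 c : Matrix X X ℤ)) x y =
      d * ((if x = y then 1 else 0) - (if x = c • y then 1 else 0)) := by
    intro x y
    rw [Matrix.smul_apply, smul_eq_mul, E0_apply]
  by_cases hfree : ∃ x : X, c • x = x
  · -- then everything vanishes
    obtain ⟨x0, hx0⟩ := hfree
    have hall : ∀ x : X, c • x = x := by
      intro x
      by_cases h1 : x = x0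
      · rw [h1, hx0]
      have h2 : x ≠ c • x0 := by rwa [hx0]
      have h3 : x0 ≠ c • x := by
        rintro h
        apply h1
        have := congrArg (fun y => c • y) h
        simp only [ccx hc2, hx0] at this
        exact this.symm
      obtain ⟨g, h4, -⟩ := hDT x0 x x x0 h1 h2 (Ne.symm h1) h3
      have h5 : c • (g • x0) = g • x0 := by rw [← cg hc, hx0]
      rcases h4 with h4 | h4
      · rw [h4] at h5; exact h5
      · rw [h4, ccx hc2] at h5; exact h5.symm
    have hk0 : ∀ x y : X, k x y = 0 := by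
      intro x y
      have := hk.odd x y
      rw [hall y] at this
      omega
    refine ⟨0, 0, Or.inl ⟨rfl, ?_⟩⟩
    ext x y
    rw [hk0, zero_smul, Matrix.zero_apply]
  push Not at hfree
  by_cases hκ0 : κ = 0
  · refine ⟨d, 0, Or.inl ⟨rfl, ?_⟩⟩
    ext x y
    rw [hE]
    by_cases h1 : y = x
    · subst h1
      rw [hd, if_pos rfl, if_neg (hfree y).symm]; ring
    by_cases h2 : y = c • x
    · subst h2
      rw [hkc, ccx hc2, if_pos rfl, if_neg (hfree x).symm]; ring
    · rw [if_neg (Ne.symm h1), if_neg (fun h => h2 (by rw [h, ccx hc2]))]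
      have := hκ x y h1 h2
      rw [hκ0, abs_eq_zero] at this
      rw [this]; ring
  · refine ⟨d, κ, Or.inr ⟨hκ0, ?_⟩⟩
    refine ⟨fun x y => if y = x ∨ y = c • x then 0 else Int.sign (k x y), ?_, ?_⟩
    · refine { inv := ?_, odd := ?_, diag := ?_, sgn := ?_ }
      · intro g x y
        rw [← cg hc]
        simp only [smul_left_cancel_iff, hk.inv]
      · intro x y
        have e1 : (c • y = x ∨ c • y = c • x) ↔ (y = x ∨ y = c • x) := by
          rw [smul_left_cancel_iff]
          constructor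
          · rintro (h | h)
            · right; rw [← h, ccx hc2]
            · left; exact h
          · rintro (h | h)
            · right; exact h
            · left; rw [h, ccx hc2]
        simp only [e1, hk.odd, Int.sign_neg]
        split_ifs <;> simp
      · intro x; simp
      · intro x y h1 h2
        have h3 : ¬ (y = x ∨ y = c • x) := by tauto
        simp only [if_neg h3]
        have h4 : k x y ≠ 0 := by
          intro h0
          have := hκ x y h1 h2
          simp only [h0, abs_zero] at this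
          exact hκ0 this.symm
        rcases lt_or_gt_of_ne h4 with h5 | h5
        · right; exact Int.sign_eq_neg_one_of_neg h5
        · left; exact Int.sign_eq_one_of_pos h5
    · ext x y
      rw [Matrix.add_apply, hE, Matrix.smul_apply, smul_eq_mul]
      by_cases h1 : y = x
      · subst h1
        rw [hd, if_pos rfl, if_neg (hfree y).symm, if_pos (Or.inl rfl)]; ring
      by_cases h2 : y = c • x
      · subst h2
        rw [hkc, ccx hc2, if_pos rfl, if_neg (hfree x).symm, if_pos (Or.inr rfl)]; ring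
      · rw [if_neg (Ne.symm h1), if_neg (fun h => h2 (by rw [h, ccx hc2])), if_neg (by tauto)]
        have h5 : |k x y| = κ := hκ x y h1 h2
        rw [← h5, mul_comm |k x y|, Int.sign_mul_abs]
        ring

end Pool.Agent.K4H54.CZ2
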