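import Pool.Agent.K4H54.CZ2.Krn
import Pool.Agent.Q11.CZ.Main

/-!
# Embeddings of a CM field and of its maximal real subfield
-/

set_option autoImplicit false

open scoped Classical
open NumberField

namespace Pool.Agent.K4H54.CZ2

open Pool.Agent.Q11.CZ

variable {K E : Type} [Field K] [NumberField K] [IsCMField K]
  [Field E] [NumberField E] [IsCMField E]

/-- complex conjugation on an embedding -/
lemma c_comp (ψ : E →ₐ[ℚ] K) (x : E) :
    (conj K • ψ) x = ψ (IsCMField.complexConj E x) := by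
  obtain ⟨φ⟩ : Nonempty (K →+* ℂ) := inferInstance
  apply φ.injective
  have h1 : φ ((conj K • ψ) x) = starRingEnd ℂ (φ (ψ x)) := by
    rw [act_def]
    exact emb_conj φ (ψ x)
  have h2 : (φ.comp (ψ : E →+* K)) (IsCMField.complexConj E x) = starRingEnd ℂ (φ (ψ x)) :=
    IsCMField.complexEmbedding_complexConj E (φ.comp (ψ : E →+* K)) x
  rw [h1]
  exact h2.symm

variable (E) in
/-- the inclusion of the maximal real subfield -/
noncomputable def incF : maximalRealSubfield E →ₐ[ℚ] E :=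
  ((maximalRealSubfield E).subtype).toRatAlgHom

/-- restriction to the maximal real subfield -/
noncomputable def res (ψ : E →ₐ[ℚ] K) : maximalRealSubfield E →ₐ[ℚ] K := ψ.comp (incF E)

lemma res_apply (ψ : E →ₐ[ℚ] K) (x : maximalRealSubfield E) : res ψ x = ψ x := rfl

lemma res_smul (g : K ≃ₐ[ℚ] K) (ψ : E →ₐ[ℚ] K) : res (g • ψ) = g • res ψ := rfl

variable (E) in
lemma exists_anti : ∃ α : E, α ≠ 0 ∧ IsCMField.complexConj E α = - α := by
  have h1 : ∃ x : E, IsCMField.complexConj E x ≠ x := by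
    by_contra h
    push Not at h
    apply IsCMField.complexConj_ne_one E
    apply AlgEquiv.ext
    intro x
    exact h x
  obtain ⟨x, hx⟩ := h1
  refine ⟨x - IsCMField.complexConj E x, sub_ne_zero.mpr (Ne.symm hx), ?_⟩
  rw [map_sub, IsCMField.complexConj_apply_apply]
  ring

theorem res_eq_iff (ψ ψ' : E →ₐ[ℚ] K) :
    res ψ = res ψ' ↔ ψ' = ψ ∨ ψ' = conj K • ψ := by
  constructor
  · intro h
    have hr : ∀ x : E, IsCMField.complexConj E x = x → ψ x = ψ' x := by
      intro x hx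
      rw [IsCMField.complexConj_eq_self_iff] at hx
      exact congrArg (fun f : maximalRealSubfield E →ₐ[ℚ] K => f ⟨x, hx⟩) h
    obtain ⟨α, hα0, hα⟩ := exists_anti E
    have h2 : ψ α * ψ α = ψ' α * ψ' α := by
      rw [← map_mul, ← map_mul]
      apply hr
      rw [map_mul, hα]; ring
    have hsplit : ∀ x : E, ∃ a b : E, IsCMField.complexConj E a = a ∧
        IsCMField.complexConj E b = b ∧ x = a + b * α ∧ IsCMField.complexConj E x = a - b * α := by
      intro x
      refine ⟨(x + IsCMField.complexConj E x) / 2, (x - IsCMField.complexConj E x) / (2 * α),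
        ?_, ?_, ?_, ?_⟩
      · rw [map_div₀, map_add, IsCMField.complexConj_apply_apply, map_ofNat]
        ring
      · rw [map_div₀, map_sub, IsCMField.complexConj_apply_apply, map_mul, map_ofNat, hα]
        field_simp
        ring
      · field_simp; ring
      · field_simp; ring
    have h3 : ψ' α = ψ α ∨ ψ' α = - ψ α := by
      rw [← sq_eq_sq_iff_eq_or_eq_neg, sq, sq, h2]
    rcases h3 with h3 | h3
    · left
      apply AlgHom.ext
      intro x
      obtain ⟨a, b, ha, hb, hx, -⟩ := hsplit x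
      rw [hx, map_add, map_add, map_mul, map_mul, hr a ha, hr b hb, h3]
    · right
      apply AlgHom.ext
      intro x
      rw [c_comp]
      obtain ⟨a, b, ha, hb, hx, hx'⟩ := hsplit x
      rw [hx', hx, map_add, map_sub, map_mul, map_mul, hr a ha, hr b hb, h3]
      ring
  · rintro (rfl | rfl)
    · rfl
    · apply AlgHom.ext
      intro x
      rw [res_apply, res_apply, c_comp, IsCMField.complexConj_apply_eq_self]

theorem DT_of_field (h : ∀ σ τ σ' τ' : maximalRealSubfield E →ₐ[ℚ] K, σ ≠ τ → σ' ≠ τ' →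
    ∃ g : K ≃ₐ[ℚ] K, g • σ = σ' ∧ g • τ = τ') : DT (E →ₐ[ℚ] K) (conj K) := by
  intro x y x' y' h1 h2 h3 h4
  have h5 : ∀ {x y : E →ₐ[ℚ] K}, y ≠ x → y ≠ conj K • x → res x ≠ res y := by
    intro x y h1 h2 h
    rcases (res_eq_iff x y).mp h with h | h
    · exact h1 h
    · exact h2 h
  obtain ⟨g, h6, h7⟩ := h _ _ _ _ (h5 h1 h2) (h5 h3 h4)
  refine ⟨g, ?_, ?_⟩
  · rw [← res_smul] at h6
    exact (res_eq_iff _ _).mp h6.symm
  · rw [← res_smul] at h7
    exact (res_eq_iff _ _).mp h7.symm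

variable (E) in
lemma finrank_E : Module.finrank ℚ E = 2 * Module.finrank ℚ (maximalRealSubfield E) := by
  rw [← Module.finrank_mul_finrank ℚ (maximalRealSubfield E) E,
    Algebra.IsQuadraticExtension.finrank_eq_two (maximalRealSubfield E) E, mul_comm]

theorem card_half_field [IsGalois ℚ K] {Φ : Finset (E →ₐ[ℚ] K)} (hΦ : IsHalf (conj K) Φ)
    (ψ : E →ₐ[ℚ] K) : Φ.card = Module.finrank ℚ (maximalRealSubfield E) := by
  have h1 : Fintype.card (E →ₐ[ℚ] K) = Module.finrank ℚ E := by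
    apply AlgHom.card_of_splits
    intro x
    have h2 : minpoly ℚ x = minpoly ℚ (ψ x) := (minpoly.algHom_eq ψ ψ.injective x).symm
    rw [h2]
    exact Normal.splits inferInstance (ψ x)
  have h2 := half_card (c := conj K) conj_mul_self hΦ
  rw [h1, finrank_E E] at h2
  omega

/-- the split case -/
theorem split_sign {δ : E} {q : ℚ} (hq : q < 0) (hδ : δ ^ 2 = algebraMap ℚ E q)
    (ψ₀ : E →ₐ[ℚ] K) : ∃ S : (E →ₐ[ℚ] K) → ℤ, (∀ x, S x = 1 ∨ S x = -1) ∧
      (∀ x, S (conj K • x) = - S x) ∧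
      (∀ (g : K ≃ₐ[ℚ] K) (x y : E →ₐ[ℚ] K), S (g • x) * S (g • y) = S x * S y) := by
  have hsq : ∀ ψ : E →ₐ[ℚ] K, ψ δ * ψ δ = algebraMap ℚ K q := by
    intro ψ
    rw [← map_mul, ← sq, hδ, AlgHom.commutes]
  have hq0 : algebraMap ℚ K q ≠ 0 := by
    rw [Ne, map_eq_zero]; exact hq.ne
  have hne : ∀ ψ : E →ₐ[ℚ] K, ψ δ ≠ 0 := by
    intro ψ h
    have := hsq ψ
    rw [h, mul_zero] at this
    exact hq0 this.symm
  have hpm : ∀ ψ ψ' : E →ₐ[ℚ] K, ψ' δ = ψ δ ∨ ψ' δ = - ψ δ := by
    intro ψ ψ'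
    rw [← sq_eq_sq_iff_eq_or_eq_neg, sq, sq, hsq, hsq]
  have hneg : ∀ ψ : E →ₐ[ℚ] K, ψ δ ≠ - ψ δ := by
    intro ψ h
    apply hne ψ
    have : (2 : K) * ψ δ = 0 := by linear_combination h
    rcases mul_eq_zero.mp this with h | h
    · exact absurd h two_ne_zero
    · exact h
  have hcδ : IsCMField.complexConj E δ = - δ := by
    have h1 : IsCMField.complexConj E δ = δ ∨ IsCMField.complexConj E δ = - δ := by
      rw [← sq_eq_sq_iff_eq_or_eq_neg, ← map_pow, hδ]
      obtain ⟨φ⟩ : Nonempty (E →+* ℂ) := inferInstance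
      apply φ.injective
      rw [IsCMField.complexEmbedding_complexConj]
      simp
    rcases h1 with h1 | h1
    · exfalso
      obtain ⟨φ⟩ : Nonempty (E →+* ℂ) := inferInstance
      have h2 : starRingEnd ℂ (φ δ) = φ δ := by
        rw [← IsCMField.complexEmbedding_complexConj, h1]
      obtain ⟨r, hr⟩ := Complex.conj_eq_iff_real.mp h2
      have h3 : φ δ * φ δ = (q : ℂ) := by
        rw [← map_mul, ← sq, hδ]
        simp
      rw [hr] at h3
      have h4 : r * r = (q : ℝ) := by exact_mod_cast h3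
      have h5 : (q : ℝ) < 0 := by exact_mod_cast hq
      nlinarith [mul_self_nonneg r]
    · exact h1
  refine ⟨fun ψ => if ψ δ = ψ₀ δ then 1 else -1, ?_, ?_, ?_⟩
  · intro x
    simp only
    split_ifs <;> simp
  · intro x
    simp only [c_comp, hcδ, map_neg]
    rcases hpm ψ₀ x with h | h
    · rw [h, if_pos rfl, if_neg (fun h' => hneg ψ₀ h'.symm)]
    · rw [h, neg_neg, if_pos rfl, if_neg (fun h' => hneg ψ₀ h'.symm)]
      norm_num
  · have key : ∀ x y : E →ₐ[ℚ] K, (if x δ = ψ₀ δ then (1 : ℤ) else -1) *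
        (if y δ = ψ₀ δ then (1 : ℤ) else -1) = if x δ = y δ then 1 else -1 := by
      intro x y
      rcases hpm ψ₀ x with h | h <;> rcases hpm ψ₀ y with h' | h'
      · simp [h, h']
      · have e1 := hneg ψ₀
        have e2 : ¬ (- ψ₀ δ = ψ₀ δ) := fun h => e1 h.symm
        simp only [h, h', if_pos, if_neg e1, if_neg e2]
        norm_num
      · have e1 := hneg ψ₀
        have e2 : ¬ (- ψ₀ δ = ψ₀ δ) := fun h => e1 h.symm
        simp only [h, h', if_pos, if_neg e2]
        norm_num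
      · have e1 := hneg ψ₀
        have e2 : ¬ (- ψ₀ δ = ψ₀ δ) := fun h => e1 h.symm
        simp only [h, h', if_pos, if_neg e2]
        norm_num
    intro g x y
    simp only
    rw [key, key]
    have e1 : ∀ x : E →ₐ[ℚ] K, (g • x) δ = g (x δ) := fun x => rfl
    simp only [e1, EmbeddingLike.apply_eq_iff_eq]

/-- the primitive case -/
theorem indep_of_prim [IsGalois ℚ K]
    (hL : ∀ L : IntermediateField ℚ (maximalRealSubfield E), L = ⊥ ∨ L = ⊤)
    (v₀ : K ≃ₐ[ℚ] K) (hv₀ : ∀ σ : maximalRealSubfield E →ₐ[ℚ] K, v₀ • σ = σ)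
    (h1 : ∃ ψ : E →ₐ[ℚ] K, v₀ • ψ ≠ ψ) (h2 : ∃ ψ : E →ₐ[ℚ] K, v₀ • ψ ≠ conj K • ψ) :
    ∀ x y : E →ₐ[ℚ] K, y ≠ x → y ≠ conj K • x →
      ∃ g : K ≃ₐ[ℚ] K, g • x = x ∧ g • y = conj K • y := by
  set N : Set (K ≃ₐ[ℚ] K) := {v | ∀ σ : maximalRealSubfield E →ₐ[ℚ] K, v • σ = σ} with hN
  have hNX : ∀ v ∈ N, ∀ ψ : E →ₐ[ℚ] K, v • ψ = ψ ∨ v • ψ = conj K • ψ := by
    intro v hv ψ
    have : res ψ = res (v • ψ) := by rw [res_smul, hv]
    exact (res_eq_iff ψ (v • ψ)).mp this
  have hNconj : ∀ v ∈ N, ∀ g : K ≃ₐ[ℚ] K, g⁻¹ * v * g ∈ N := by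
    intro v hv g σ
    rw [mul_smul, mul_smul, hv, inv_smul_smul]
  set R : (E →ₐ[ℚ] K) → (E →ₐ[ℚ] K) → Prop := fun ψ ψ' => ∀ v ∈ N, (v • ψ = ψ ↔ v • ψ' = ψ')
    with hR
  have hRsymm : ∀ {ψ ψ'}, R ψ ψ' → R ψ' ψ := fun h v hv => (h v hv).symm
  have hRtrans : ∀ {ψ ψ' ψ''}, R ψ ψ' → R ψ' ψ'' → R ψ ψ'' :=
    fun h h' v hv => (h v hv).trans (h' v hv)
  have hRg : ∀ (g : K ≃ₐ[ℚ] K) {ψ ψ'}, R ψ ψ' → R (g • ψ) (g • ψ') := by
    intro g ψ ψ' h v hv
    have e : ∀ ψ : E →ₐ[ℚ] K, v • g • ψ = g • ψ ↔ (g⁻¹ * v * g) • ψ = ψ := by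
      intro ψ
      rw [mul_smul, mul_smul, inv_smul_eq_iff]
    rw [e, e]
    exact h _ (hNconj v hv g)
  have hRc : ∀ ψ, R ψ (conj K • ψ) := by
    intro ψ v hv
    rw [cg (c := conj K) conj_comm v ψ, smul_left_cancel_iff]
  let L : IntermediateField ℚ (maximalRealSubfield E) :=
    { carrier := {x | ∀ ψ ψ', R ψ ψ' → res ψ x = res ψ' x}
      mul_mem' := by
        intro a b ha hb ψ ψ' h
        rw [map_mul, map_mul, ha ψ ψ' h, hb ψ ψ' h]
      one_mem' := by
        intro ψ ψ' _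
        rw [map_one, map_one]
      add_mem' := by
        intro a b ha hb ψ ψ' h
        rw [map_add, map_add, ha ψ ψ' h, hb ψ ψ' h]
      zero_mem' := by
        intro ψ ψ' _
        rw [map_zero, map_zero]
      algebraMap_mem' := by
        intro q ψ ψ' _
        rw [AlgHom.commutes, AlgHom.commutes]
      inv_mem' := by
        intro a ha ψ ψ' h
        rw [map_inv₀, map_inv₀, ha ψ ψ' h] }
  have hmem : ∀ x, x ∈ L ↔ ∀ ψ ψ', R ψ ψ' → res ψ x = res ψ' x := fun x => Iff.rfl
  rcases hL L with hL | hL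
  · -- everything is equivalent
    exfalso
    obtain ⟨ψ₀, hψ₀⟩ := h1
    let U : Subgroup (K ≃ₐ[ℚ] K) :=
      { carrier := {g | R (g • ψ₀) ψ₀}
        mul_mem' := by
          intro a b ha hb
          show R ((a * b) • ψ₀) ψ₀
          rw [mul_smul]
          exact hRtrans (hRg a hb) ha
        one_mem' := by
          show R ((1 : K ≃ₐ[ℚ] K) • ψ₀) ψ₀
          rw [one_smul]
          exact fun v _ => Iff.rfl
        inv_mem' := by
          intro a ha
          show R (a⁻¹ • ψ₀) ψ₀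
          have := hRg a⁻¹ ha
          rw [inv_smul_smul] at this
          exact hRsymm this }
    have hUfix : IntermediateField.fixedField U = ⊥ := by
      rw [eq_bot_iff]
      intro y hy
      rw [IntermediateField.mem_fixedField_iff] at hy
      have hy1 : y ∈ (res ψ₀).fieldRange := by
        rw [← IsGalois.fixedField_fixingSubgroup (res ψ₀).fieldRange,
          IntermediateField.mem_fixedField_iff]
        intro g hg
        apply hy
        rw [IntermediateField.mem_fixingSubgroup_iff] at hg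
        have h3 : res ψ₀ = res (g • ψ₀) := by
          rw [res_smul]
          apply AlgHom.ext
          intro x
          exact (hg _ ⟨x, rfl⟩).symm
        show R (g • ψ₀) ψ₀
        rcases (res_eq_iff _ _).mp h3 with h4 | h4
        · rw [h4]; exact fun v _ => Iff.rfl
        · rw [h4]; exact hRsymm (hRc ψ₀)
      obtain ⟨x, hx⟩ := hy1
      have hx' : res ψ₀ x = y := hx
      have hxL : x ∈ L := by
        rw [hmem]
        intro ψ ψ' h
        obtain ⟨g, rfl⟩ := exists_lift ψ₀ ψ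
        obtain ⟨g', rfl⟩ := exists_lift ψ₀ ψ'
        have h3 : R ((g⁻¹ * g') • ψ₀) ψ₀ := by
          have := hRg g⁻¹ h
          rw [inv_smul_smul, ← mul_smul] at this
          exact hRsymm this
        have h4 : (g⁻¹ * g') y = y := hy _ h3
        have h5 : g' y = g y := by
          have h6 := congrArg g h4
          rw [← AlgEquiv.mul_apply, mul_inv_cancel_left] at h6
          exact h6
        have e1 : res (g • ψ₀) x = g (res ψ₀ x) := rfl
        have e2 : res (g' • ψ₀) x = g' (res ψ₀ x) := rfl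
        rw [e1, e2, hx', h5]
      rw [hL] at hxL
      obtain ⟨q, hq⟩ := IntermediateField.mem_bot.mp hxL
      rw [← hx', ← hq, AlgHom.commutes]
      exact IntermediateField.algebraMap_mem _ q
    have hU : U = ⊤ := by
      rw [← IntermediateField.fixingSubgroup_fixedField U, hUfix,
        IntermediateField.fixingSubgroup_bot]
    obtain ⟨ψ₂, hψ₂⟩ := h2
    obtain ⟨g, rfl⟩ := exists_lift ψ₀ ψ₂
    have h3 : R (g • ψ₀) ψ₀ := by
      have : g ∈ U := by rw [hU]; exact Subgroup.mem_top g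
      exact this
    have h4 : v₀ • g • ψ₀ = g • ψ₀ := by
      rcases hNX v₀ hv₀ (g • ψ₀) with h | h
      · exact h
      · exact absurd h hψ₂
    exact hψ₀ ((h3 v₀ hv₀).mp h4)
  · intro x y hyx hycx
    have hnR : ¬ R x y := by
      intro h
      have h3 : res x = res y := by
        apply AlgHom.ext
        intro z
        have hz : z ∈ L := by rw [hL]; trivial
        exact (hmem z).mp hz x y h
      rcases (res_eq_iff x y).mp h3 with h4 | h4
      · exact hyx h4
      · exact hycx h4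
    simp only [hR] at hnR
    push Not at hnR
    obtain ⟨v, hv, h3 | h3⟩ := hnR
    · refine ⟨v, h3.1, ?_⟩
      rcases hNX v hv y with h | h
      · exact absurd h h3.2
      · exact h
    · refine ⟨conj K * v, ?_, ?_⟩
      · rw [mul_smul]
        rcases hNX v hv x with h | h
        · exact absurd h h3.1
        · rw [h, ccx (c := conj K) conj_mul_self]
      · rw [mul_smul, h3.2]

end Pool.Agent.K4H54.CZ2
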