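import Pool.Agent.K4H54.CZ2.Krn

/-!
# Rank three with a sign character
-/

set_option autoImplicit false

open scoped Classical

namespace Pool.Agent.K4H54.CZ2

open Pool.Agent.Q11.CZ Matrix

variable {X : Type*} [Fintype X]

/-- quadratic relation, integral root -/
lemma frob_of_quad (M : Matrix X X ℤ) (b : ℤ) (h : M * M = b • M) (hb : b ≠ 0) : Frob M := by
  refine frob_of_cubic M b (-b) hb (neg_ne_zero.mpr hb) (by omega) ?_
  rw [h, Matrix.smul_mul, h]
  module

lemma sym_sq_zero (M : Matrix X X ℤ) (hs : ∀ x y, M y x = M x y) (h : M * M = 0) : M = 0 := by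
  ext x y
  have h1 : (M * M) x x = 0 := by rw [h]; rfl
  rw [Matrix.mul_apply] at h1
  have h2 : ∀ z ∈ (Finset.univ : Finset X), 0 ≤ M x z * M z x := fun z _ => by
    rw [hs x z]; exact mul_self_nonneg _
  have h3 := (Finset.sum_eq_zero_iff_of_nonneg h2).mp h1 y (Finset.mem_univ _)
  rw [hs x y] at h3
  rw [mul_self_eq_zero.mp h3]; rfl

lemma quad_of_cubic_sym (A : Matrix X X ℤ) (b : ℤ) (hs : ∀ x y, A y x = A x y)
    (h3 : A * A * A = b • (A * A)) : A * A = b • A := by
  have hQ : A * A - b • A = 0 := by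
    apply sym_sq_zero
    · intro x y
      have e1 : (A * A) y x = (A * A) x y := by
        simp only [Matrix.mul_apply]
        refine Finset.sum_congr rfl fun z _ => ?_
        rw [hs z y, hs x z]; ring
      rw [Matrix.sub_apply, Matrix.sub_apply, Matrix.smul_apply, Matrix.smul_apply, e1,
        hs x y]
    · have e4 : A * A * (A * A) = (b * b) • (A * A) := by
        rw [← Matrix.mul_assoc, h3, Matrix.smul_mul, h3, smul_smul]
      have e5 : A * (A * A) = b • (A * A) := by rw [← Matrix.mul_assoc, h3]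
      have e6 : (A * A - b • A) * (A * A - b • A) = A * A * (A * A) - b • (A * (A * A)) -
          b • (A * A * A - b • (A * A)) := by
        rw [Matrix.mul_sub, Matrix.sub_mul, Matrix.mul_smul, Matrix.sub_mul, Matrix.smul_mul,
          Matrix.smul_mul]
      rw [e6, e4, e5, h3]
      module
  exact sub_eq_zero.mp hQ

/-- two idempotents: multiplicities of the two irrational eigenvalues agree -/
theorem mult_eq (A : Matrix X X ℤ) (b m T1 T2 : ℤ) (h : A * A * A = b • (A * A) + m • A)
    (h1 : trace A = T1) (h2 : trace (A * A) = T2) (hm : m ≠ 0)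
    (hd : 0 ≤ b * b + 4 * m) (hns : ¬ IsSquare (b * b + 4 * m)) :
    ∃ r : ℕ, (r : ℤ) * b = T1 ∧ (r : ℤ) * (b * b + 2 * m) = T2 := by
  have hirr : Irrational (√((b * b + 4 * m : ℤ) : ℝ)) :=
    irrational_sqrt_intCast_iff.mpr ⟨hns, hd⟩
  set s : ℝ := √((b * b + 4 * m : ℤ) : ℝ) with hs
  have hs2 : s * s = (b : ℝ) * b + 4 * m := by
    rw [hs, Real.mul_self_sqrt (by exact_mod_cast hd)]
    push_cast; ring
  have hs0 : s ≠ 0 := hirr.ne_zero
  -- the idempotent of the root `(b + ε s) / 2`
  have key : ∀ ε : ℝ, ε * ε = 1 → ∃ k : ℕ,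
      (T2 : ℝ) - (b - ε * s) / 2 * T1 = k * ((b + ε * s) / 2 * (ε * s)) := by
    intro ε hε
    have hε0 : ε ≠ 0 := by rintro rfl; norm_num at hε
    set t1 : ℝ := (b + ε * s) / 2 with ht1
    set t2 : ℝ := (b - ε * s) / 2 with ht2
    have hsum : t1 + t2 = b := by rw [ht1, ht2]; ring
    have hprod : t1 * t2 = - m := by
      have : t1 * t2 = ((b : ℝ) * b - (ε * ε) * (s * s)) / 4 := by rw [ht1, ht2]; ring
      rw [this, hs2, hε]; ring
    have hdif : t1 - t2 = ε * s := by rw [ht1, ht2]; ring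
    have ht10 : t1 ≠ 0 := by
      intro h0
      rw [h0, zero_mul] at hprod
      apply hm
      have : (m : ℝ) = 0 := by linarith
      exact_mod_cast this
    set N : Matrix X X ℝ := A.map (Int.castRingHom ℝ) with hN
    have hN3 : N * N * N = (t1 + t2) • (N * N) - (t1 * t2) • N := by
      have := congrArg (fun A : Matrix X X ℤ => A.map (Int.castRingHom ℝ)) h
      simp only [map_mul'] at this
      rw [← hN] at this
      rw [this, hsum, hprod]
      ext x y
      simp only [Matrix.map_apply, Matrix.sub_apply, Matrix.add_apply, Matrix.smul_apply,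
        smul_eq_mul, hN, Int.coe_castRingHom, Int.cast_mul, Int.cast_add, Matrix.mul_apply,
        Int.cast_sum]
      ring
    have hc0 : t1 * (t1 - t2) ≠ 0 := by
      rw [hdif]; exact mul_ne_zero ht10 (mul_ne_zero hε0 hs0)
    obtain ⟨k, hk⟩ := trace_idem ((t1 * (t1 - t2))⁻¹ • (N * N - t2 • N)) (by
      have e1 : (N * N - t2 • N) * (N * N - t2 • N) = (t1 * (t1 - t2)) • (N * N - t2 • N) := by
        have e2 : (N * N - t2 • N) * N = t1 • (N * N - t2 • N) := by
          rw [Matrix.sub_mul, Matrix.smul_mul, hN3]; module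
        rw [Matrix.mul_sub, ← Matrix.mul_assoc, Matrix.mul_smul, e2, Matrix.smul_mul, e2]
        module
      rw [Matrix.smul_mul, Matrix.mul_smul, e1, smul_smul, smul_smul, mul_assoc,
        inv_mul_cancel₀ hc0, mul_one])
    have htr : ∀ B : Matrix X X ℤ, trace (B.map (Int.castRingHom ℝ)) = ((trace B : ℤ) : ℝ) := by
      intro B
      simp [trace, Matrix.diag]
    rw [trace_smul, trace_sub, trace_smul, hN, ← map_mul', htr, htr, h1, h2, smul_eq_mul,
      smul_eq_mul] at hk
    refine ⟨k, ?_⟩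
    rw [← hk, ← hdif, mul_comm ((t1 * (t1 - t2))⁻¹), mul_assoc, inv_mul_cancel₀ hc0, mul_one]
  obtain ⟨k1, hk1⟩ := key 1 (by norm_num)
  obtain ⟨k2, hk2⟩ := key (-1) (by norm_num)
  -- difference and combination
  have e1 : ((k1 : ℝ) - k2) * s = 2 * T1 - (k1 + k2) * b := by
    have h3 : s * (((k1 : ℝ) - k2) * s - (2 * T1 - (k1 + k2) * b)) = 0 := by
      linear_combination (-2) * (hk1 - hk2)
    rcases mul_eq_zero.mp h3 with h4 | h4
    · exact absurd h4 hs0
    · linarith
  have e2 : (k1 : ℤ) = k2 := by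
    by_contra hne
    have h3 : ((k1 : ℝ) - k2) ≠ 0 := by
      intro h4
      apply hne
      have : (k1 : ℝ) = k2 := by linarith
      exact_mod_cast this
    have h5 : s = (((2 * T1 - (k1 + k2) * b) / (k1 - k2) : ℚ) : ℝ) := by
      push_cast
      rw [eq_div_iff h3, mul_comm, e1]
    rw [h5] at hirr
    exact hirr (Set.mem_range_self _)
  have e3 : (k1 : ℝ) = k2 := by exact_mod_cast e2
  have e4 : (k1 : ℝ) * b = T1 := by
    rw [← e3] at e1
    linarith
  refine ⟨k1, by exact_mod_cast e4, ?_⟩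
  have e5 : (k1 : ℝ) * (b * b + 2 * m) = T2 := by
    have h6 := hk1
    rw [← e4] at h6
    linear_combination (-1) * h6 - (k1 : ℝ) / 2 * hs2
  exact_mod_cast e5

section
variable {G : Type*} [Group G] {c : G} [MulAction G X]

/-- two classes of pairs and a sign character -/
structure RT (c : G) (S : X → ℤ) (M1 : Matrix X X ℤ) : Prop where
  S1 : ∀ x, S x = 1 ∨ S x = -1
  Sc : ∀ x, S (c • x) = - S x
  Sg : ∀ (g : G) (x y : X), S (g • x) * S (g • y) = S x * S y
  inv : ∀ (g : G) (x y : X), M1 (g • x) (g • y) = M1 x y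
  ev : ∀ x y : X, M1 x (c • y) = M1 x y
  dg : ∀ x, M1 x x = 0
  zo : ∀ x y, M1 x y = 0 ∨ M1 x y = 1
  tr1 : ∀ x y x' y' : X, M1 x y = 1 → M1 x' y' = 1 →
    ∃ g : G, (g • x = x' ∨ g • x = c • x') ∧ (g • y = y' ∨ g • y = c • y')
  tr2 : ∀ x y x' y' : X, y ≠ x → y ≠ c • x → M1 x y = 0 → y' ≠ x' → y' ≠ c • x' → M1 x' y' = 0 →
    ∃ g : G, (g • x = x' ∨ g • x = c • x') ∧ (g • y = y' ∨ g • y = c • y')

/-- the kernel of the sign character -/
def SS (S : X → ℤ) : Matrix X X ℤ := fun x y => S x * S y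

/-- the odd kernel of the first class -/
def AA (S : X → ℤ) (M1 : Matrix X X ℤ) : Matrix X X ℤ := fun x y => S x * S y * M1 x y

variable {S : X → ℤ} {M1 : Matrix X X ℤ}

omit [Fintype X] in
lemma RT.sq (h : RT c S M1) (x : X) : S x * S x = 1 := by
  rcases h.S1 x with h | h <;> rw [h] <;> norm_num

omit [Fintype X] in
lemma RT.evl (h : RT c S M1) (hc2 : c * c = 1) (x y : X) : M1 (c • x) y = M1 x y := by
  rw [← ccx hc2 y, h.inv, h.ev, h.ev, h.ev]

omit [Fintype X] in
lemma RT.dgc (h : RT c S M1) (x : X) : M1 x (c • x) = 0 := by rw [h.ev, h.dg]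

omit [Fintype X] in
lemma RT.oiA (h : RT c S M1) : OI c (AA S M1) := by
  constructor
  · intro g x y
    simp only [AA, h.inv, h.Sg]
  · intro x y
    simp only [AA, h.ev, h.Sc]
    ring

omit [Fintype X] in
lemma RT.oiS (h : RT c S M1) : OI c (SS S) := by
  constructor
  · intro g x y
    simp only [SS, h.Sg]
  · intro x y
    simp only [SS, h.Sc]
    ring

omit [Fintype X] in
lemma RT.const (h : RT c S M1) {B : X → X → ℤ}
    (hinv : ∀ (g : G) (x y : X), B (g • x) (g • y) = B x y)
    (h1 : ∀ x y : X, B (c • x) y = B x y) (h2 : ∀ x y : X, B x (c • y) = B x y) :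
    (∃ a : ℤ, ∀ x y : X, M1 x y = 1 → B x y = a) ∧
      (∃ b : ℤ, ∀ x y : X, y ≠ x → y ≠ c • x → M1 x y = 0 → B x y = b) := by
  constructor
  · by_cases hx : ∃ x y : X, M1 x y = 1
    · obtain ⟨x0, y0, h3⟩ := hx
      refine ⟨B x0 y0, fun x y h5 => ?_⟩
      obtain ⟨g, h7, h8⟩ := h.tr1 x0 y0 x y h3 h5
      rw [← hinv g x0 y0]
      rcases h7 with h7 | h7 <;> rcases h8 with h8 | h8 <;> rw [h7, h8] <;> simp [h1, h2]
    · push Not at hx
      exact ⟨0, fun x y h5 => absurd h5 (hx x y)⟩
  · by_cases hx : ∃ x y : X, y ≠ x ∧ y ≠ c • x ∧ M1 x y = 0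
    · obtain ⟨x0, y0, h3, h4, h5⟩ := hx
      refine ⟨B x0 y0, fun x y h6 h7 h8 => ?_⟩
      obtain ⟨g, h9, h10⟩ := h.tr2 x0 y0 x y h3 h4 h5 h6 h7 h8
      rw [← hinv g x0 y0]
      rcases h9 with h7 | h7 <;> rcases h10 with h8 | h8 <;> rw [h7, h8] <;> simp [h1, h2]
    · push Not at hx
      exact ⟨0, fun x y h5 h6 h7 => absurd h7 (hx x y h5 h6)⟩

/-- every odd kernel is a combination of three -/
theorem RT.decomp [MulAction.IsPretransitive G X] (h : RT c S M1) (hc2 : c * c = 1)
    (hfree : ∀ x : X, c • x ≠ x) {k : Matrix X X ℤ} (hk : OI c k) :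
    ∃ d a b : ℤ, k = d • E0 c + a • AA S M1 + b • SS S := by
  obtain ⟨⟨a, ha⟩, ⟨b, hb⟩⟩ := h.const (B := fun x y => k x y * (S x * S y))
    (fun g x y => by simp only [hk.inv, h.Sg])
    (fun x y => by simp only [hk.oddl hc2, h.Sc]; ring)
    (fun x y => by simp only [hk.odd, h.Sc]; ring)
  have hd : ∃ d : ℤ, ∀ x, k x x = d := by
    by_cases hX : Nonempty X
    swap
    · exact ⟨0, fun x => absurd ⟨x⟩ hX⟩
    obtain ⟨x0⟩ := hX
    refine ⟨k x0 x0, fun x => ?_⟩
    obtain ⟨g, rfl⟩ := MulAction.exists_smul_eq G x0 x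
    rw [hk.inv]
  obtain ⟨d, hd⟩ := hd
  have hkk : ∀ x y, k x y = (k x y * (S x * S y)) * (S x * S y) := by
    intro x y
    linear_combination (-(k x y) * (S y * S y)) * h.sq x - k x y * h.sq y
  refine ⟨d - b, a - b, b, ?_⟩
  ext x y
  rw [Matrix.add_apply, Matrix.add_apply, Matrix.smul_apply, Matrix.smul_apply, Matrix.smul_apply,
    smul_eq_mul, smul_eq_mul, smul_eq_mul, E0_apply]
  simp only [AA, SS]
  by_cases h1 : y = x
  · subst h1
    rw [hd, if_pos rfl, if_neg (hfree y).symm, h.dg]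
    linear_combination (-b) * h.sq y
  by_cases h2 : y = c • x
  · subst h2
    rw [hk.odd, hd, ccx hc2, if_pos rfl, if_neg (hfree x).symm, h.dgc, h.Sc]
    linear_combination b * h.sq x
  · rw [if_neg (Ne.symm h1), if_neg (fun h => h2 (by rw [h, ccx hc2]))]
    rcases h.zo x y with h3 | h3
    · have h4 : k x y * (S x * S y) = b := hb x y h1 h2 h3
      rw [hkk, h4, h3]; ring
    · have h4 : k x y * (S x * S y) = a := ha x y h3
      rw [hkk, h4, h3]; ring

lemma RT.SS_mul (h : RT c S M1) : SS S * SS S = (Fintype.card X : ℤ) • SS S := by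
  ext x y
  rw [Matrix.mul_apply, Matrix.smul_apply, smul_eq_mul]
  simp only [SS]
  have : ∀ z ∈ (Finset.univ : Finset X), S x * S z * (S z * S y) = S x * S y := by
    intro z _
    linear_combination (S x * S y) * h.sq z
  rw [Finset.sum_congr rfl this, Finset.sum_const, Finset.card_univ, nsmul_eq_mul]

lemma RT.AA_SS (h : RT c S M1) {κ : ℤ} (hκ : ∀ x, ∑ y, M1 x y = κ) :
    AA S M1 * SS S = κ • SS S := by
  ext x y
  rw [Matrix.mul_apply, Matrix.smul_apply, smul_eq_mul, ← hκ x, Finset.sum_mul]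
  refine Finset.sum_congr rfl fun z _ => ?_
  simp only [SS, AA]
  linear_combination (M1 x z * (S x * S y)) * h.sq z

lemma RT.SS_AA (h : RT c S M1) (hs : ∀ x y, M1 y x = M1 x y) {κ : ℤ}
    (hκ : ∀ x, ∑ y, M1 x y = κ) : SS S * AA S M1 = κ • SS S := by
  ext x y
  rw [Matrix.mul_apply, Matrix.smul_apply, smul_eq_mul, ← hκ y, Finset.sum_mul]
  refine Finset.sum_congr rfl fun z _ => ?_
  simp only [SS, AA]
  rw [hs y z]
  linear_combination (M1 y z * (S x * S y)) * h.sq z

lemma E0_mul' (hc2 : c * c = 1) {A : Matrix X X ℤ} (hA : OI c A) : E0 c * A = (2 : ℤ) • A := by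
  unfold E0
  rw [Matrix.sub_mul, Matrix.one_mul]
  ext x y
  rw [Matrix.sub_apply, P_mul', inv_eq_of_mul_eq_one_left hc2, hA.oddl hc2, Matrix.smul_apply,
    smul_eq_mul]
  ring

theorem RT.frobA' [MulAction.IsPretransitive G X] (h : RT c S M1) (hc : ∀ g, c * g = g * c)
    (hc2 : c * c = 1) {Φ : Finset X} (hΦ : IsHalf c Φ) (hs : ∀ x y, M1 y x = M1 x y) {κ : ℤ}
    (hκ : ∀ x, ∑ y, M1 x y = κ) (hκ0 : κ ≠ 0)
    (hrest : ∃ x y : X, y ≠ x ∧ y ≠ c • x ∧ M1 x y = 0)
    (hcase : 2 * κ ≠ Fintype.card X - 2 ∨ ∃ r : ℤ, (Fintype.card X : ℤ) = 2 * (r * r)) :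
    Frob ((Fintype.card X : ℤ) • AA S M1 - κ • SS S) := by
  have hfree := half_free hΦ
  set N : ℤ := (Fintype.card X : ℤ) with hN
  have hnn : ∀ x y, 0 ≤ M1 x y := fun x y => by rcases h.zo x y with h | h <;> rw [h] <;> norm_num
  have hsq1 : ∀ x y, M1 x y * M1 y x = M1 x y := by
    intro x y
    rw [hs x y]
    rcases h.zo x y with h | h <;> rw [h] <;> norm_num
  -- the square of `M1`
  have hM2 : ∀ x z, (M1 * M1) x z = ∑ y, M1 x y * M1 y z := fun x z => Matrix.mul_apply
  have hinv2 : ∀ (g : G) (x y : X), (M1 * M1) (g • x) (g • y) = (M1 * M1) x y := by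
    intro g x y
    rw [hM2, hM2, ← Equiv.sum_comp (MulAction.toPerm g)]
    simp only [MulAction.toPerm_apply, h.inv]
  have hev2 : ∀ x y : X, (M1 * M1) x (c • y) = (M1 * M1) x y := by
    intro x y
    simp only [hM2, h.ev]
  have hev2l : ∀ x y : X, (M1 * M1) (c • x) y = (M1 * M1) x y := by
    intro x y
    simp only [hM2, h.evl hc2]
  obtain ⟨⟨α, hα⟩, ⟨μ, hμ⟩⟩ := h.const (B := fun x y => (M1 * M1) x y) hinv2 hev2l hev2
  have hα : ∀ x y : X, M1 x y = 1 → (M1 * M1) x y = α := hα
  have hμ : ∀ x y : X, y ≠ x → y ≠ c • x → M1 x y = 0 → (M1 * M1) x y = μ := hμ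
  have hdiag : ∀ x, (M1 * M1) x x = κ := by
    intro x
    rw [hM2, ← hκ x]
    exact Finset.sum_congr rfl fun y _ => hsq1 x y
  have hdiagc : ∀ x, (M1 * M1) x (c • x) = κ := fun x => by rw [hev2, hdiag]
  -- the square of `AA`
  have hA2 : AA S M1 * AA S M1 = (κ - μ) • E0 c + (α - μ) • AA S M1 + μ • SS S := by
    have e1 : ∀ x z, (AA S M1 * AA S M1) x z = S x * S z * (M1 * M1) x z := by
      intro x z
      rw [Matrix.mul_apply, hM2, Finset.mul_sum]
      refine Finset.sum_congr rfl fun y _ => ?_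
      simp only [AA]
      linear_combination (S x * S z * (M1 x y * M1 y z)) * h.sq y
    ext x y
    rw [e1, Matrix.add_apply, Matrix.add_apply, Matrix.smul_apply, Matrix.smul_apply,
      Matrix.smul_apply, smul_eq_mul, smul_eq_mul, smul_eq_mul, E0_apply]
    simp only [AA, SS]
    by_cases h1 : y = x
    · subst h1
      rw [hdiag, if_pos rfl, if_neg (hfree y).symm, h.dg]
      linear_combination (κ - μ) * h.sq y
    by_cases h2 : y = c • x
    · subst h2
      rw [hdiagc, ccx hc2, if_pos rfl, if_neg (hfree x).symm, h.dgc, h.Sc]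
      linear_combination (-(κ - μ)) * h.sq x
    · rw [if_neg (Ne.symm h1), if_neg (fun h => h2 (by rw [h, ccx hc2]))]
      rcases h.zo x y with h3 | h3
      · rw [hμ x y h1 h2 h3, h3]; ring
      · rw [hα x y h3, h3]; ring
  have hAS := h.AA_SS hκ
  have hSA := h.SS_AA hs hκ
  have hSS := h.SS_mul
  rw [← hN] at hSS
  set A' : Matrix X X ℤ := N • AA S M1 - κ • SS S with hA'
  have hSA' : SS S * A' = 0 := by
    rw [hA', Matrix.mul_sub, Matrix.mul_smul, Matrix.mul_smul, hSA, hSS]; module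
  have hoi : OI c A' := by
    constructor
    · intro g x y
      simp only [hA', Matrix.sub_apply, Matrix.smul_apply, h.oiA.inv, h.oiS.inv]
    · intro x y
      simp only [hA', Matrix.sub_apply, Matrix.smul_apply, h.oiA.odd, h.oiS.odd, smul_eq_mul]
      ring
  have hA'sym : ∀ x y, A' y x = A' x y := by
    intro x y
    simp only [hA', Matrix.sub_apply, Matrix.smul_apply, AA, SS, smul_eq_mul, hs x y]
    ring
  have hA'2 : A' * A' = (N * N) • (AA S M1 * AA S M1) - (N * κ * κ) • SS S := by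
    rw [hA', Matrix.mul_sub, Matrix.sub_mul, Matrix.sub_mul, Matrix.mul_smul, Matrix.mul_smul,
      Matrix.smul_mul, Matrix.smul_mul, Matrix.smul_mul, Matrix.smul_mul, Matrix.mul_smul,
      Matrix.mul_smul, hAS, hSA, hSS]
    module
  have hNA : N • (AA S M1 * A') = A' * A' := by
    have : N • AA S M1 = A' + κ • SS S := by rw [hA']; module
    rw [← Matrix.smul_mul, this, Matrix.add_mul, Matrix.smul_mul, hSA', smul_zero, add_zero]
  have h3 : A' * A' * A' = (N * (α - μ)) • (A' * A') + (2 * (N * N) * (κ - μ)) • A' := by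
    conv_lhs => rw [hA'2, hA2]
    rw [Matrix.sub_mul, Matrix.smul_mul, Matrix.smul_mul, hSA', Matrix.add_mul, Matrix.add_mul,
      Matrix.smul_mul, Matrix.smul_mul, Matrix.smul_mul, hSA', E0_mul' hc2 hoi, ← hNA]
    module
  -- counting
  obtain ⟨x0, y0, hy1, hy2, hy3⟩ := hrest
  have hκnn : 0 ≤ κ := by rw [← hκ x0]; exact Finset.sum_nonneg fun y _ => hnn x0 y
  have hκpos : 0 < κ := lt_of_le_of_ne hκnn (Ne.symm hκ0)
  have hκN : κ ≤ N - 3 := by
    have e1 : ∑ y, (1 - M1 x0 y) = N - κ := by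
      rw [Finset.sum_sub_distrib, hκ x0, Finset.sum_const, Finset.card_univ, nsmul_eq_mul, mul_one]
    have e2 : ∑ y ∈ ({x0, c • x0, y0} : Finset X), (1 - M1 x0 y) ≤ ∑ y, (1 - M1 x0 y) := by
      refine Finset.sum_le_sum_of_subset_of_nonneg (Finset.subset_univ _) fun y _ _ => ?_
      rcases h.zo x0 y with h | h <;> rw [h] <;> norm_num
    rw [Finset.sum_insert (by
      simp only [Finset.mem_insert, Finset.mem_singleton, not_or]
      exact ⟨(hfree x0).symm, Ne.symm hy1⟩), Finset.sum_insert (by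
      simp only [Finset.mem_singleton]; exact Ne.symm hy2), Finset.sum_singleton, h.dg, h.dgc, hy3]
      at e2
    omega
  have heven : ∀ x z, (2 : ℤ) ∣ (M1 * M1) x z := by
    intro x z
    rw [hM2, half_sum hc2 hΦ (fun y => M1 x y * M1 y z) (fun y => by
      simp only [h.ev, h.evl hc2])]
    exact Dvd.intro _ rfl
  have hμκ : μ ≤ κ := by
    rw [← hμ x0 y0 hy1 hy2 hy3, hM2, ← hκ x0]
    refine Finset.sum_le_sum fun y _ => ?_
    rcases h.zo x0 y with e | e <;> rcases h.zo y y0 with e' | e' <;> rw [e, e'] <;> norm_num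
  obtain ⟨y1, hy4⟩ : ∃ y1, M1 x0 y1 = 1 := by
    by_contra hno
    push Not at hno
    apply hκ0
    rw [← hκ x0]
    refine Finset.sum_eq_zero fun y _ => ?_
    rcases h.zo x0 y with e | e
    · exact e
    · exact absurd e (hno y)
  have hdeven : (2 : ℤ) ∣ α - μ := by
    have e1 := heven x0 y1
    have e2 := heven x0 y0
    rw [hα x0 y1 hy4] at e1
    rw [hμ x0 y0 hy1 hy2 hy3] at e2
    exact dvd_sub e1 e2
  have hstar : 2 * κ + α * κ + μ * (N - 2 - κ) = κ * κ := by
    have e1 : ∑ z, (M1 * M1) x0 z = κ * κ := by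
      simp only [hM2]
      rw [Finset.sum_comm]
      have : ∀ y ∈ (Finset.univ : Finset X), ∑ z, M1 x0 y * M1 y z = M1 x0 y * κ := by
        intro y _
        rw [← Finset.mul_sum, hκ]
      rw [Finset.sum_congr rfl this, ← Finset.sum_mul, hκ]
    have e2 : ∀ z ∈ (Finset.univ : Finset X), (M1 * M1) x0 z =
        (κ - μ) * (if z = x0 then 1 else 0) + (κ - μ) * (if z = c • x0 then 1 else 0) +
          (α - μ) * M1 x0 z + μ * 1 := by
      intro z _
      by_cases h1 : z = x0
      · subst h1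
        rw [hdiag, if_pos rfl, if_neg (hfree z).symm, h.dg]; ring
      by_cases h2 : z = c • x0
      · subst h2
        rw [hdiagc, if_neg (hfree x0), if_pos rfl, h.dgc]; ring
      · rw [if_neg h1, if_neg h2]
        rcases h.zo x0 z with h5 | h5
        · rw [hμ x0 z h1 h2 h5, h5]; ring
        · rw [hα x0 z h5, h5]; ring
    rw [Finset.sum_congr rfl e2, Finset.sum_add_distrib, Finset.sum_add_distrib,
      Finset.sum_add_distrib, ← Finset.mul_sum, ← Finset.mul_sum, ← Finset.mul_sum,
      ← Finset.mul_sum, Finset.sum_ite_eq', Finset.sum_ite_eq', hκ, Finset.sum_const,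
      Finset.card_univ, nsmul_eq_mul, if_pos (Finset.mem_univ _), if_pos (Finset.mem_univ _),
      ← hN] at e1
    linarith
  have hN0 : N ≠ 0 := by omega
  -- traces
  have htA : trace (AA S M1) = 0 := by
    simp only [trace, Matrix.diag, AA, h.dg, mul_zero, Finset.sum_const_zero]
  have htS : trace (SS S) = N := by
    simp only [trace, Matrix.diag, SS, h.sq, Finset.sum_const, Finset.card_univ, nsmul_eq_mul,
      mul_one, ← hN]
  have htE : trace (E0 c : Matrix X X ℤ) = N := by
    have : ∀ x : X, (E0 c : Matrix X X ℤ) x x = 1 := by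
      intro x
      rw [E0_apply, if_pos rfl, if_neg (hfree x).symm, sub_zero]
    simp only [trace, Matrix.diag, this, Finset.sum_const, Finset.card_univ, nsmul_eq_mul,
      mul_one, ← hN]
  have ht1 : trace A' = - (κ * N) := by
    rw [hA', trace_sub, trace_smul, trace_smul, htA, htS, smul_eq_mul, smul_eq_mul]; ring
  have ht2 : trace (A' * A') = N * N * (κ * (N - κ)) := by
    rw [hA'2, hA2, trace_sub, trace_smul, trace_smul, trace_add, trace_add, trace_smul, trace_smul,
      trace_smul, htA, htS, htE]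
    simp only [smul_eq_mul]
    ring
  by_cases hm : κ = μ
  · -- degenerate case
    rw [hm, sub_self, mul_zero, zero_smul, add_zero, ← hm] at h3
    set b : ℤ := N * (α - κ) with hb
    have hQ' : A' * A' = b • A' := quad_of_cubic_sym A' b hA'sym h3
    by_cases hb0 : b = 0
    · rw [hb0, zero_smul] at hQ'
      rw [sym_sq_zero A' hA'sym hQ']
      exact frob_zero
    · exact frob_of_quad A' b hQ' hb0
  · have hm1 : 0 < κ - μ := by
      have : μ < κ := lt_of_le_of_ne hμκ (Ne.symm hm)
      omega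
    have hNN : 0 < N * N := by positivity
    have hm0 : 0 < 2 * (N * N) * (κ - μ) := by positivity
    have hd0 : 0 < (N * (α - μ)) * (N * (α - μ)) + 4 * (2 * (N * N) * (κ - μ)) := by
      have : 0 ≤ (N * (α - μ)) * (N * (α - μ)) := mul_self_nonneg _
      linarith
    by_cases hsq : IsSquare ((N * (α - μ)) * (N * (α - μ)) + 4 * (2 * (N * N) * (κ - μ)))
    · obtain ⟨s, hs'⟩ := hsq
      refine frob_of_square A' _ _ s hm0.ne' ?_ hs' h3
      rintro rfl
      rw [mul_zero] at hs'
      exact hd0.ne' hs'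
    · exfalso
      obtain ⟨r, hr1, hr2⟩ := mult_eq A' _ _ _ _ h3 ht1 ht2 hm0.ne' hd0.le hsq
      have hr1' : (r : ℤ) * (α - μ) = - κ := by
        have : N * ((r : ℤ) * (α - μ)) = N * (- κ) := by linarith
        exact mul_left_cancel₀ hN0 this
      have hr2' : (r : ℤ) * ((α - μ) * (α - μ) + 4 * (κ - μ)) = κ * (N - κ) := by
        have : (N * N) * ((r : ℤ) * ((α - μ) * (α - μ) + 4 * (κ - μ))) =
            (N * N) * (κ * (N - κ)) := by linarith
        exact mul_left_cancel₀ hNN.ne' this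
      have e1 : (α - μ) * (α - μ) + 4 * (κ - μ) = - ((α - μ) * (N - κ)) := by
        have : κ * ((α - μ) * (α - μ) + 4 * (κ - μ)) = κ * (- ((α - μ) * (N - κ))) := by
          linear_combination (-(α - μ)) * hr2' + ((α - μ) * (α - μ) + 4 * (κ - μ)) * hr1'
        exact mul_left_cancel₀ hκ0 this
      have e2 : ((α - μ) * (N - 2) + 4 * κ) * ((α - μ) + (N - κ)) = 0 := by
        linear_combination (N - 2) * e1 + 4 * hstar
      rcases mul_eq_zero.mp e2 with e3 | e3
      · obtain ⟨e, he⟩ := hdeven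
        have e4 : e * (N - 2) = - (2 * κ) := by
          rw [he] at e3; linarith
        have e5 : e = -1 := by
          have h6 : 0 < N - 2 := by omega
          have h7 : e < 0 := by
            by_contra hge
            push Not at hge
            have : 0 ≤ e * (N - 2) := mul_nonneg hge h6.le
            omega
          have h8 : -2 < e := by
            by_contra hle
            push Not at hle
            have : e * (N - 2) ≤ (-2) * (N - 2) := mul_le_mul_of_nonneg_right hle h6.le
            omega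
          omega
        rw [e5] at e4 he
        have e6 : N - 2 = 2 * κ := by linarith
        rcases hcase with hc1 | ⟨r0, hr0⟩
        · exact hc1 e6.symm
        · apply hsq
          have e7 : 2 * μ = κ := by
            have h9 : α = μ - 2 := by linarith
            rw [h9] at hstar
            have h10 : κ * (2 * μ) = κ * κ := by
              have : N - 2 - κ = κ := by linarith
              rw [this] at hstar
              linarith
            exact mul_left_cancel₀ hκ0 h10
          refine ⟨N * (2 * r0), ?_⟩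
          rw [he]
          have h11 : 4 * κ = 4 * (r0 * r0) - 4 := by linarith
          linear_combination (-4 * N * N) * e7 + (N * N) * h11
      · apply hm
        have e4 : (N - 2) * (μ - κ) = 0 := by
          linear_combination hstar - κ * e3
        rcases mul_eq_zero.mp e4 with e5 | e5
        · omega
        · linarith

variable [Fintype G]

lemma zinv_SS (h : RT c S M1) : ZInv (fun g : G => (D (SS S) g : ℚ)) := by
  by_cases hX : (Fintype.card X : ℤ) = 0
  · have : IsEmpty X := by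
      rw [← Fintype.card_eq_zero_iff]; exact_mod_cast hX
    intro g g' _
    simp [D]
  · exact D_zinv h.oiS.inv (frob_of_quad (SS S) _ h.SS_mul hX)

lemma zinv_AA [MulAction.IsPretransitive G X] (h : RT c S M1) (hc : ∀ g, c * g = g * c)
    (hc2 : c * c = 1) {Φ : Finset X} (hΦ : IsHalf c Φ) (hs : ∀ x y, M1 y x = M1 x y)
    (hcase : (∀ x, 2 * ∑ y, M1 x y ≠ Fintype.card X - 2) ∨
      ∃ r : ℤ, (Fintype.card X : ℤ) = 2 * (r * r)) :
    ZInv (fun g : G => (D (AA S M1) g : ℚ)) := by
  by_cases hX : Nonempty X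
  swap
  · intro g g' _
    have : IsEmpty X := not_nonempty_iff.mp hX
    simp [D]
  obtain ⟨x1⟩ := hX
  have hκ : ∀ x, ∑ y, M1 x y = ∑ y, M1 x1 y := by
    intro x
    obtain ⟨g, rfl⟩ := MulAction.exists_smul_eq G x1 x
    rw [← Equiv.sum_comp (MulAction.toPerm g)]
    simp only [MulAction.toPerm_apply, h.inv]
  set κ : ℤ := ∑ y, M1 x1 y with hκdef
  have hSSz := zinv_SS h
  have hE := D_zinv (oi_E0 (X := X) hc hc2).inv (frob_E0 hc hc2)
  by_cases hκ0 : κ = 0
  · have hM : AA S M1 = 0 := by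
      ext x y
      have h1 : ∑ y, M1 x y = 0 := by rw [hκ x, hκ0]
      have h2 := (Finset.sum_eq_zero_iff_of_nonneg (fun y _ => by
        rcases h.zo x y with h | h <;> rw [h]; norm_num)).mp h1 y (Finset.mem_univ _)
      simp only [AA, h2, mul_zero, Matrix.zero_apply]
    intro g g' _
    simp [hM, D]
  by_cases hrest : ∃ x y : X, y ≠ x ∧ y ≠ c • x ∧ M1 x y = 0
  · have hN0 : (Fintype.card X : ℤ) ≠ 0 := by
      have : 0 < Fintype.card X := Fintype.card_pos_iff.mpr ⟨x1⟩
      omega
    have hF := h.frobA' hc hc2 hΦ hs hκ hκ0 hrest (by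
      rcases hcase with hc1 | hc1
      · left; exact hc1 x1
      · right; exact hc1)
    have hoi : ∀ (g : G) (x y : X), ((Fintype.card X : ℤ) • AA S M1 - κ • SS S) (g • x) (g • y) =
        ((Fintype.card X : ℤ) • AA S M1 - κ • SS S) x y := by
      intro g x y
      simp only [Matrix.sub_apply, Matrix.smul_apply, h.oiA.inv, h.oiS.inv]
    have hz := D_zinv hoi hF
    intro g g' hg
    have e1 : (D ((Fintype.card X : ℤ) • AA S M1 - κ • SS S) g : ℚ) =
        D ((Fintype.card X : ℤ) • AA S M1 - κ • SS S) g' := hz g g' hg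
    have e2 : (D (SS S) g : ℚ) = D (SS S) g' := hSSz g g' hg
    have e3 : ∀ g : G, D ((Fintype.card X : ℤ) • AA S M1 - κ • SS S) g =
        (Fintype.card X : ℤ) * D (AA S M1) g - κ * D (SS S) g := by
      intro g
      have := D_add (AA S M1) (SS S) (Fintype.card X : ℤ) (-κ) g
      rw [neg_smul, ← sub_eq_add_neg] at this
      rw [this]; ring
    have e1' : D ((Fintype.card X : ℤ) • AA S M1 - κ • SS S) g =
        D ((Fintype.card X : ℤ) • AA S M1 - κ • SS S) g' := by exact_mod_cast e1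
    have e2' : D (SS S) g = D (SS S) g' := by exact_mod_cast e2
    rw [e3, e3, e2'] at e1'
    have e4 : (Fintype.card X : ℤ) * D (AA S M1) g = (Fintype.card X : ℤ) * D (AA S M1) g' := by
      linarith
    have e5 := mul_left_cancel₀ hN0 e4
    show (D (AA S M1) g : ℚ) = D (AA S M1) g'
    rw [e5]
  · push Not at hrest
    have hM : AA S M1 = (-1 : ℤ) • E0 c + (1 : ℤ) • SS S := by
      ext x y
      rw [Matrix.add_apply, Matrix.smul_apply, Matrix.smul_apply, smul_eq_mul, smul_eq_mul,
        E0_apply]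
      simp only [AA, SS]
      by_cases h1 : y = x
      · subst h1
        rw [h.dg, if_pos rfl, if_neg (half_free hΦ y).symm]
        linear_combination (-1 : ℤ) * h.sq y
      by_cases h2 : y = c • x
      · subst h2
        rw [h.dgc, ccx hc2, if_pos rfl, if_neg (half_free hΦ x).symm, h.Sc]
        linear_combination h.sq x
      · rw [if_neg (Ne.symm h1), if_neg (fun h => h2 (by rw [h, ccx hc2]))]
        rcases h.zo x y with h3 | h3
        · exact absurd h3 (hrest x y h1 h2)
        · rw [h3]; ring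
    rw [hM]
    exact zinv_comb hE hSSz _ _

theorem zinv_rt [MulAction.IsPretransitive G X] (h : RT c S M1) (hc : ∀ g, c * g = g * c)
    (hc2 : c * c = 1) {Φ : Finset X} (hΦ : IsHalf c Φ) (hs : ∀ x y, M1 y x = M1 x y)
    (hcase : (∀ x, 2 * ∑ y, M1 x y ≠ Fintype.card X - 2) ∨
      ∃ r : ℤ, (Fintype.card X : ℤ) = 2 * (r * r)) {k : Matrix X X ℤ} (hk : OI c k) :
    ZInv (fun g : G => (D k g : ℚ)) := by
  obtain ⟨d, a, b, rfl⟩ := h.decomp hc2 (half_free hΦ) hk
  have hE := D_zinv (oi_E0 (X := X) hc hc2).inv (frob_E0 hc hc2)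
  have h1 := zinv_comb hE (zinv_AA h hc hc2 hΦ hs hcase) d a
  have h2 := zinv_comb h1 (zinv_SS h) 1 b
  rwa [one_smul] at h2

/-- mutually inverse classes -/
theorem zinv_tour [MulAction.IsPretransitive G X] (h : RT c S M1) (hc : ∀ g, c * g = g * c)
    (hc2 : c * c = 1) {Φ : Finset X} (hΦ : IsHalf c Φ)
    (hT : ∀ x y, y ≠ x → y ≠ c • x → M1 x y + M1 y x = 1) {k : Matrix X X ℤ} (hk : OI c k)
    (hks : ∀ x y, k y x = k x y) :
    ZInv (fun g : G => (D k g : ℚ)) := by
  obtain ⟨d, a, b, hdec⟩ := h.decomp hc2 (half_free hΦ) hk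
  have hE := D_zinv (oi_E0 (X := X) hc hc2).inv (frob_E0 hc hc2)
  have h2 : (2 : ℤ) • k = (2 * d - a) • E0 c + (a + 2 * b) • SS S := by
    ext x y
    have e1 : 2 * k x y = k x y + k y x := by rw [hks x y]; ring
    rw [Matrix.smul_apply, smul_eq_mul, e1, hdec]
    simp only [Matrix.add_apply, Matrix.smul_apply, smul_eq_mul, E0_apply, AA, SS]
    have hyx : (y = c • x) ↔ (x = c • y) := by
      constructor
      · rintro rfl; exact (ccx hc2 x).symm
      · rintro rfl; exact (ccx hc2 y).symm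
    have hyx' : (y = x) ↔ (x = y) := eq_comm
    simp only [hyx, hyx']
    by_cases h1 : y = x
    · subst h1
      rw [h.dg, if_pos rfl, if_neg (half_free hΦ y).symm]
      linear_combination (-a) * h.sq y
    by_cases h2 : y = c • x
    · subst h2
      rw [h.dgc, ccx hc2, if_pos rfl, if_neg (half_free hΦ x).symm, h.evl hc2, h.dg, h.Sc]
      linear_combination a * h.sq x
    · rw [if_neg (Ne.symm h1), if_neg (fun h => h2 (by rw [h, ccx hc2]))]
      linear_combination (a * (S x * S y)) * hT x y h1 h2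
  have h3 := zinv_comb hE (zinv_SS h) (2 * d - a) (a + 2 * b)
  rw [← h2] at h3
  intro g g' hg
  have e1 : (D ((2 : ℤ) • k) g : ℚ) = D ((2 : ℤ) • k) g' := h3 g g' hg
  have e2 : ∀ g : G, D ((2 : ℤ) • k) g = 2 * D k g := by
    intro g
    have := D_add k k 2 0 g
    rw [zero_smul, add_zero] at this
    rw [this]; ring
  rw [e2, e2] at e1
  push_cast at e1
  show (D k g : ℚ) = D k g'
  linarith

end

end Pool.Agent.K4H54.CZ2
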