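import Pool.Agent.K4H54.CZ2.Fd2
import Pool.Agent.K4H54.CZ2.Rk3

/-!
# Rank three: from the embeddings of the real subfield to those of the CM field
-/

set_option autoImplicit false

open scoped Classical
open NumberField

namespace Pool.Agent.K4H54.CZ2

open Pool.Agent.Q11.CZ

variable {K E : Type} [Field K] [NumberField K] [IsCMField K]
  [Field E] [NumberField E] [IsCMField E]

/-- lifted class -/
noncomputable def lft (R : (maximalRealSubfield E →ₐ[ℚ] K) → (maximalRealSubfield E →ₐ[ℚ] K) → Prop) :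
    Matrix (E →ₐ[ℚ] K) (E →ₐ[ℚ] K) ℤ := fun x y => if R (res x) (res y) then 1 else 0

lemma res_c (x : E →ₐ[ℚ] K) : res (conj K • x) = res x :=
  ((res_eq_iff x (conj K • x)).mpr (Or.inr rfl)).symm

theorem rt_of_field
    {R : (maximalRealSubfield E →ₐ[ℚ] K) → (maximalRealSubfield E →ₐ[ℚ] K) → Prop}
    (hinv : ∀ (g : K ≃ₐ[ℚ] K) (σ τ : maximalRealSubfield E →ₐ[ℚ] K),
      R (g • σ) (g • τ) ↔ R σ τ)
    (hne : ∀ σ τ, R σ τ → σ ≠ τ)
    (h1 : ∀ σ τ σ' τ', R σ τ → R σ' τ' → ∃ g : K ≃ₐ[ℚ] K, g • σ = σ' ∧ g • τ = τ')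
    (h2 : ∀ σ τ σ' τ', σ ≠ τ → ¬ R σ τ → σ' ≠ τ' → ¬ R σ' τ' →
      ∃ g : K ≃ₐ[ℚ] K, g • σ = σ' ∧ g • τ = τ')
    {S : (E →ₐ[ℚ] K) → ℤ} (hS : ∀ x, S x = 1 ∨ S x = -1) (hSc : ∀ x, S (conj K • x) = - S x)
    (hSg : ∀ (g : K ≃ₐ[ℚ] K) (x y : E →ₐ[ℚ] K), S (g • x) * S (g • y) = S x * S y) :
    RT (conj K) S (lft R) := by
  have hl1 : ∀ x y, lft R x y = 1 ↔ R (res x) (res y) := by
    intro x y
    unfold lft
    split_ifs with h <;> simp [h]
  have hl0 : ∀ x y, lft R x y = 0 ↔ ¬ R (res x) (res y) := by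
    intro x y
    unfold lft
    split_ifs with h <;> simp [h]
  have hlift : ∀ (g : K ≃ₐ[ℚ] K) (x x' : E →ₐ[ℚ] K), g • res x = res x' →
      g • x = x' ∨ g • x = conj K • x' := by
    intro g x x' h
    rw [← res_smul] at h
    exact (res_eq_iff _ _).mp h.symm
  have hresne : ∀ x y : E →ₐ[ℚ] K, y ≠ x → y ≠ conj K • x → res x ≠ res y := by
    intro x y h1 h2 h
    rcases (res_eq_iff x y).mp h with h | h
    · exact h1 h
    · exact h2 h
  refine ⟨hS, hSc, hSg, ?_, ?_, ?_, ?_, ?_, ?_⟩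
  · intro g x y
    unfold lft
    rw [res_smul, res_smul]
    simp only [hinv]
  · intro x y
    unfold lft
    rw [res_c]
  · intro x
    rw [hl0]
    intro h
    exact hne _ _ h rfl
  · intro x y
    rcases em (R (res x) (res y)) with h | h
    · right; exact (hl1 x y).mpr h
    · left; exact (hl0 x y).mpr h
  · intro x y x' y' h3 h4
    obtain ⟨g, h5, h6⟩ := h1 _ _ _ _ ((hl1 x y).mp h3) ((hl1 x' y').mp h4)
    exact ⟨g, hlift g x x' h5, hlift g y y' h6⟩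
  · intro x y x' y' h3 h4 h5 h6 h7 h8
    obtain ⟨g, h9, h10⟩ := h2 _ _ _ _ (hresne x y h3 h4) ((hl0 x y).mp h5) (hresne x' y' h6 h7)
      ((hl0 x' y').mp h8)
    exact ⟨g, hlift g x x' h9, hlift g y y' h10⟩

variable [IsGalois ℚ K]

lemma res_surj (ψ₀ : E →ₐ[ℚ] K) (σ : maximalRealSubfield E →ₐ[ℚ] K) :
    ∃ ψ : E →ₐ[ℚ] K, res ψ = σ := by
  obtain ⟨g, hg⟩ := exists_lift (res ψ₀) σ
  exact ⟨g • ψ₀, by rw [res_smul, hg]⟩

lemma sum_res (hfree : ∀ x : E →ₐ[ℚ] K, conj K • x ≠ x) (ψ₀ : E →ₐ[ℚ] K)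
    (f : (maximalRealSubfield E →ₐ[ℚ] K) → ℤ) :
    ∑ y : E →ₐ[ℚ] K, f (res y) = 2 * ∑ τ, f τ := by
  rw [← Finset.sum_fiberwise Finset.univ (fun y : E →ₐ[ℚ] K => res y), Finset.mul_sum]
  refine Finset.sum_congr rfl fun τ _ => ?_
  obtain ⟨y0, hy0⟩ := res_surj ψ₀ τ
  have h1 : (Finset.univ.filter fun y : E →ₐ[ℚ] K => res y = τ) = {y0, conj K • y0} := by
    ext y
    simp only [Finset.mem_filter, Finset.mem_univ, true_and, Finset.mem_insert,
      Finset.mem_singleton]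
    rw [← hy0]
    constructor
    · intro h
      exact (res_eq_iff y0 y).mp h.symm
    · intro h
      exact ((res_eq_iff y0 y).mpr h).symm
  rw [h1, Finset.sum_pair (hfree y0).symm, res_c, hy0]
  ring

end Pool.Agent.K4H54.CZ2
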