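import Pool.Agent.K4H54.CZ2.Fd3

/-!
# Design types
-/

set_option autoImplicit false

open scoped Classical
open NumberField

namespace Pool.Agent.K4H54.CZ2

open Pool.Agent.Q11.CZ

variable {K E : Type} [Field K] [NumberField K] [IsCMField K]
  [Field E] [NumberField E] [IsCMField E]

/-- the split case, with the values at `δ` -/
theorem split_sign' {δ : E} {q : ℚ} (hq : q < 0) (hδ : δ ^ 2 = algebraMap ℚ E q)
    (ψ₀ : E →ₐ[ℚ] K) : ∃ S : (E →ₐ[ℚ] K) → ℤ, (∀ x, S x = 1 ∨ S x = -1) ∧
      (∀ x, S (conj K • x) = - S x) ∧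
      (∀ (g : K ≃ₐ[ℚ] K) (x y : E →ₐ[ℚ] K), S (g • x) * S (g • y) = S x * S y) ∧
      (∀ x y, S x = S y → x δ = y δ) := by
  have hsq : ∀ ψ : E →ₐ[ℚ] K, ψ δ * ψ δ = algebraMap ℚ K q := by
    intro ψ
    rw [← map_mul, ← sq, hδ, AlgHom.commutes]
  have hq0 : algebraMap ℚ K q ≠ 0 := by
    rw [Ne, map_eq_zero]; exact hq.ne
  have hne : ∀ ψ : E →ₐ[ℚ] K, ψ δ ≠ 0 := by
    intro ψ h
    have := hsq ψ
    rw [h, mul_zero] at this
    exact hq0 this.symm
  have hpm : ∀ ψ ψ' : E →ₐ[ℚ] K, ψ' δ = ψ δ ∨ ψ' δ = - ψ δ := by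
    intro ψ ψ'
    rw [← sq_eq_sq_iff_eq_or_eq_neg, sq, sq, hsq, hsq]
  have hneg : ∀ ψ : E →ₐ[ℚ] K, ψ δ ≠ - ψ δ := by
    intro ψ h
    apply hne ψ
    have : (2 : K) * ψ δ = 0 := by linear_combination h
    rcases mul_eq_zero.mp this with h | h
    · exact absurd h two_ne_zero
    · exact h
  have hcδ : IsCMField.complexConj E δ = - δ := by
    have h1 : IsCMField.complexConj E δ = δ ∨ IsCMField.complexConj E δ = - δ := by
      rw [← sq_eq_sq_iff_eq_or_eq_neg, ← map_pow, hδ]
      obtain ⟨φ⟩ : Nonempty (E →+* ℂ) := inferInstance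
      apply φ.injective
      rw [IsCMField.complexEmbedding_complexConj]
      simp
    rcases h1 with h1 | h1
    · exfalso
      obtain ⟨φ⟩ : Nonempty (E →+* ℂ) := inferInstance
      have h2 : starRingEnd ℂ (φ δ) = φ δ := by
        rw [← IsCMField.complexEmbedding_complexConj, h1]
      obtain ⟨r, hr⟩ := Complex.conj_eq_iff_real.mp h2
      have h3 : φ δ * φ δ = (q : ℂ) := by
        rw [← map_mul, ← sq, hδ]
        simp
      rw [hr] at h3
      have h4 : r * r = (q : ℝ) := by exact_mod_cast h3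
      have h5 : (q : ℝ) < 0 := by exact_mod_cast hq
      nlinarith [mul_self_nonneg r]
    · exact h1
  refine ⟨fun ψ => if ψ δ = ψ₀ δ then 1 else -1, ?_, ?_, ?_, ?_⟩
  · intro x
    simp only
    split_ifs <;> simp
  · intro x
    simp only [c_comp, hcδ, map_neg]
    rcases hpm ψ₀ x with h | h
    · rw [h, if_pos rfl, if_neg (fun h' => hneg ψ₀ h'.symm)]
    · rw [h, neg_neg, if_pos rfl, if_neg (fun h' => hneg ψ₀ h'.symm)]
      norm_num
  · have key : ∀ x y : E →ₐ[ℚ] K, (if x δ = ψ₀ δ then (1 : ℤ) else -1) *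
        (if y δ = ψ₀ δ then (1 : ℤ) else -1) = if x δ = y δ then 1 else -1 := by
      intro x y
      rcases hpm ψ₀ x with h | h <;> rcases hpm ψ₀ y with h' | h'
      · simp [h, h']
      · have e1 := hneg ψ₀
        have e2 : ¬ (- ψ₀ δ = ψ₀ δ) := fun h => e1 h.symm
        simp only [h, h', if_pos, if_neg e1, if_neg e2]
        norm_num
      · have e1 := hneg ψ₀
        have e2 : ¬ (- ψ₀ δ = ψ₀ δ) := fun h => e1 h.symm
        simp only [h, h', if_pos, if_neg e2]
        norm_num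
      · have e1 := hneg ψ₀
        have e2 : ¬ (- ψ₀ δ = ψ₀ δ) := fun h => e1 h.symm
        simp only [h, h', if_pos, if_neg e2]
        norm_num
    intro g x y
    simp only
    rw [key, key]
    have e1 : ∀ x : E →ₐ[ℚ] K, (g • x) δ = g (x δ) := fun x => rfl
    simp only [e1, EmbeddingLike.apply_eq_iff_eq]
  · intro x y h
    simp only at h
    rcases hpm ψ₀ x with h1 | h1 <;> rcases hpm ψ₀ y with h2 | h2
    · rw [h1, h2]
    · rw [h1, h2, if_pos rfl, if_neg (fun h => hneg ψ₀ h.symm)] at h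
      norm_num at h
    · rw [h1, h2, if_pos rfl, if_neg (fun h => hneg ψ₀ h.symm)] at h
      norm_num at h
    · rw [h1, h2]

section
variable {G : Type*} [Group G] [Fintype G] {c : G} {X : Type*} [Fintype X] [MulAction G X]

lemma agree_sum (Φ : Finset X) (x y : X) :
    ∑ h : G, vv Φ (h⁻¹ • x) * vv Φ (h⁻¹ • y) =
      2 * ((Finset.univ.filter fun g : G => (g • x ∈ Φ ↔ g • y ∈ Φ)).card : ℤ) -
        Fintype.card G := by
  rw [← Equiv.sum_comp (Equiv.inv G), Finset.card_filter]
  push_cast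
  rw [Finset.mul_sum]
  have h1 : (Fintype.card G : ℤ) = ∑ _g : G, (1 : ℤ) := by simp
  rw [h1, ← Finset.sum_sub_distrib]
  refine Finset.sum_congr rfl fun g _ => ?_
  rw [Equiv.inv_apply, inv_inv]
  unfold vv
  by_cases hx : g • x ∈ Φ <;> by_cases hy : g • y ∈ Φ <;> simp [hx, hy]

/-- two-designs -/
theorem zinv_design (hc : ∀ g, c * g = g * c) (hc2 : c * c = 1) {Φ : Finset X}
    (hΦ : IsHalf c Φ) (S : X → ℤ) (hS : ∀ x, S x = 1 ∨ S x = -1)
    (hSc : ∀ x, S (c • x) = - S x) (hSg : ∀ (g : G) (x y : X), S (g • x) * S (g • y) = S x * S y)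
    {l : ℤ} (hl : ∀ x y : X, x ≠ y → S x = S y →
      ((Finset.univ.filter fun g : G => (g • x ∈ Φ ↔ g • y ∈ Φ)).card : ℤ) = l) :
    ZInv (fun g : G => (D (kT G Φ) g : ℚ)) := by
  have hSS : ∀ x, S x * S x = 1 := fun x => by rcases hS x with h | h <;> rw [h] <;> norm_num
  have hk := oi_kT (G := G) hc hΦ
  set N : ℤ := (Fintype.card G : ℤ) with hN
  set b : ℤ := 2 * l - N with hb
  have hdiag : ∀ x, 2 * kT G Φ x x = N := by
    intro x
    rw [kT_apply hc hΦ, agree_sum]
    simp only [iff_self, Finset.filter_true, Finset.card_univ]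
    ring
  have hsame : ∀ x y, x ≠ y → S x = S y → 2 * kT G Φ x y = b := by
    intro x y h1 h2
    rw [kT_apply hc hΦ, agree_sum, hl x y h1 h2]
  have h2 : (2 : ℤ) • kT G Φ = (N - b) • E0 c + b • SS S := by
    ext x y
    rw [Matrix.smul_apply, smul_eq_mul, Matrix.add_apply, Matrix.smul_apply, Matrix.smul_apply,
      smul_eq_mul, smul_eq_mul, E0_apply]
    simp only [SS]
    by_cases h1 : y = x
    · subst h1
      rw [hdiag, if_pos rfl, if_neg (half_free hΦ y).symm]
      linear_combination (-b) * hSS y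
    by_cases h3 : y = c • x
    · subst h3
      rw [hk.odd, ccx hc2, if_pos rfl, if_neg (half_free hΦ x).symm, hSc]
      linear_combination (-1) * hdiag x + b * hSS x
    · rw [if_neg (Ne.symm h1), if_neg (fun h => h3 (by rw [h, ccx hc2]))]
      by_cases h4 : S x = S y
      · rw [hsame x y (Ne.symm h1) h4, h4]
        linear_combination (-b) * hSS y
      · have h5 : S y = - S x := by
          rcases hS x with h | h <;> rcases hS y with h' | h' <;> omega
        have h6 : x ≠ c • y := by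
          rintro rfl
          exact h3 (ccx hc2 y).symm
        have h7 := hsame x (c • y) h6 (by rw [hSc, h5, neg_neg])
        rw [hk.odd] at h7
        rw [h5]
        linear_combination (-1) * h7 + b * hSS x
  have hQinv : ∀ (g : G) (x y : X), SS S (g • x) (g • y) = SS S x y := fun g x y => hSg g x y
  have hQQ : SS S * SS S = (Fintype.card X : ℤ) • SS S := by
    ext x y
    rw [Matrix.mul_apply, Matrix.smul_apply, smul_eq_mul]
    simp only [SS]
    have : ∀ z ∈ (Finset.univ : Finset X), S x * S z * (S z * S y) = S x * S y := by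
      intro z _
      linear_combination (S x * S y) * hSS z
    rw [Finset.sum_congr rfl this, Finset.sum_const, Finset.card_univ, nsmul_eq_mul]
  have hSSz : ZInv (fun g : G => (D (SS S) g : ℚ)) := by
    by_cases hX : (Fintype.card X : ℤ) = 0
    · have : IsEmpty X := by
        rw [← Fintype.card_eq_zero_iff]; exact_mod_cast hX
      intro g g' _
      simp [D]
    · exact D_zinv hQinv (frob_of_quad (SS S) _ hQQ hX)
  have hE := D_zinv (oi_E0 (X := X) hc hc2).inv (frob_E0 hc hc2)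
  have h3 := zinv_comb hE hSSz (N - b) b
  rw [← h2] at h3
  intro g g' hg
  have e1 : (D ((2 : ℤ) • kT G Φ) g : ℚ) = D ((2 : ℤ) • kT G Φ) g' := h3 g g' hg
  have e2 : ∀ g : G, D ((2 : ℤ) • kT G Φ) g = 2 * D (kT G Φ) g := by
    intro g
    have := D_add (kT G Φ) (kT G Φ) 2 0 g
    rw [zero_smul, add_zero] at this
    rw [this]; ring
  rw [e2, e2] at e1
  push_cast at e1
  show (D (kT G Φ) g : ℚ) = D (kT G Φ) g'
  linarith

end

end Pool.Agent.K4H54.CZ2
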