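import Pool.Agent.K4H54.CZ2.Ker

/-!
# Kernels with integral eigenvalues; a trace argument
-/

set_option autoImplicit false

open scoped Classical

namespace Pool.Agent.K4H54.CZ2

open Pool.Agent.Q11.CZ Matrix

variable {X : Type*} [Fintype X]

lemma pow_formula {R : Type*} [CommRing R] (M : Matrix X X R) (t1 t2 : R)
    (h : M * M * M = (t1 + t2) • (M * M) - (t1 * t2) • M) (k : ℕ) :
    (t1 - t2) • M ^ (k + 1) = t1 ^ k • (M * M - t2 • M) - t2 ^ k • (M * M - t1 • M) := by
  induction k with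
  | zero => simp only [zero_add, pow_one, pow_zero]; module
  | succ k ih =>
    have e1 : (t1 - t2) • M ^ (k + 1 + 1) = ((t1 - t2) • M ^ (k + 1)) * M := by
      rw [pow_succ _ (k + 1), Matrix.smul_mul]
    rw [e1, ih, Matrix.sub_mul, Matrix.smul_mul, Matrix.smul_mul, Matrix.sub_mul, Matrix.sub_mul,
      Matrix.smul_mul, Matrix.smul_mul, h]
    module

theorem frob_of_cubic (M : Matrix X X ℤ) (t1 t2 : ℤ) (ht1 : t1 ≠ 0) (ht2 : t2 ≠ 0)
    (hne : t1 ≠ t2) (h : M * M * M = (t1 + t2) • (M * M) - (t1 * t2) • M) : Frob M := by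
  refine ⟨t1.natAbs + t2.natAbs + (t1 - t2).natAbs, fun p hp hpp => ?_⟩
  have hfact : Fact p.Prime := ⟨hpp⟩
  have hz : ∀ t : ℤ, t ≠ 0 → t.natAbs < p → ((t : ℤ) : ZMod p) ≠ 0 := by
    intro t ht htp h0
    rw [ZMod.intCast_zmod_eq_zero_iff_dvd] at h0
    exact absurd (Nat.le_of_dvd (Int.natAbs_pos.mpr ht) (Int.natCast_dvd.mp h0)) (by omega)
  set N : Matrix X X (ZMod p) := M.map (Int.castRingHom (ZMod p)) with hN
  have hN3 : N * N * N = ((t1 : ZMod p) + (t2 : ZMod p)) • (N * N) -
      ((t1 : ZMod p) * (t2 : ZMod p)) • N := by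
    have := congrArg (fun A : Matrix X X ℤ => A.map (Int.castRingHom (ZMod p))) h
    simp only [map_mul'] at this
    rw [← hN] at this
    rw [this]
    ext x y
    simp only [Matrix.map_apply, Matrix.sub_apply, Matrix.smul_apply, smul_eq_mul, hN,
      Int.coe_castRingHom, Int.cast_sub, Int.cast_mul, Int.cast_add, Matrix.mul_apply,
      Int.cast_sum]
  have h1 := pow_formula N (t1 : ZMod p) (t2 : ZMod p) hN3 (p - 1)
  rw [Nat.sub_add_cancel hpp.one_lt.le, ZMod.pow_card_sub_one_eq_one (hz t1 ht1 (by omega)),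
    ZMod.pow_card_sub_one_eq_one (hz t2 ht2 (by omega))] at h1
  have h2 : ((t1 : ZMod p) - t2) • N ^ p = ((t1 : ZMod p) - t2) • N := by
    rw [h1]; module
  have h3 : ((t1 : ZMod p) - t2) ≠ 0 := by
    rw [← Int.cast_sub]
    exact hz _ (sub_ne_zero.mpr hne) (by omega)
  ext x y
  have h4 := congrFun (congrFun h2 x) y
  simp only [Matrix.smul_apply, smul_eq_mul] at h4
  exact mul_left_cancel₀ h3 h4

/-- integral eigenvalues from a square discriminant. -/
theorem frob_of_square (M : Matrix X X ℤ) (b m s : ℤ) (hm : m ≠ 0) (hs : s ≠ 0)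
    (hbs : b * b + 4 * m = s * s) (h : M * M * M = b • (M * M) + m • M) : Frob M := by
  have h2 : (2 : ℤ) ∣ (b + s) := by
    have h3 : Even (b * b + s * s) := ⟨b * b + 2 * m, by linarith⟩
    have h4 : Even (b + s) := by
      have h5 : Even ((b + s) * (b + s)) := by
        have : (b + s) * (b + s) = (b * b + s * s) + 2 * (b * s) := by ring
        rw [this]
        exact h3.add (even_two_mul _)
      rcases Int.even_mul.mp h5 with h | h <;> exact h
    exact even_iff_two_dvd.mp h4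
  obtain ⟨t1, ht1⟩ := h2
  have ht2 : b - t1 = t1 - s := by linarith
  have hprod : t1 * (b - t1) = - m := by
    have : 4 * (t1 * (b - t1)) = 4 * (- m) := by
      have e1 : 4 * (t1 * (b - t1)) = (2 * t1) * (2 * b - 2 * t1) := by ring
      rw [e1, ← ht1]
      linarith
    linarith
  refine frob_of_cubic M t1 (b - t1) ?_ ?_ ?_ ?_
  · intro h0; rw [h0, zero_mul] at hprod; apply hm; linarith
  · intro h0; rw [h0, mul_zero] at hprod; apply hm; linarith
  · intro h0; apply hs; linarith
  · rw [h, hprod]; module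

lemma trace_idem (E : Matrix X X ℝ) (hE : E * E = E) : ∃ k : ℕ, trace E = k := by
  have h1 : IsIdempotentElem (Matrix.toLin' E) := by
    show Matrix.toLin' E * Matrix.toLin' E = Matrix.toLin' E
    rw [Module.End.mul_eq_comp, ← Matrix.toLin'_mul, hE]
  refine ⟨Module.finrank ℝ (LinearMap.range (Matrix.toLin' E)), ?_⟩
  rw [← Matrix.trace_toLin'_eq]
  exact (LinearMap.IsIdempotentElem.isProj_range _ h1).trace

theorem disc_isSquare (A : Matrix X X ℤ) (b m T : ℤ) (h : A * A * A = b • (A * A) + m • A)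
    (h1 : trace A = 0) (h2 : trace (A * A) = T) (hT : T ≠ 0) (hb : b ≠ 0) (hm : m ≠ 0)
    (hd : 0 ≤ b * b + 4 * m) : IsSquare (b * b + 4 * m) := by
  by_contra hns
  have hirr : Irrational (√((b * b + 4 * m : ℤ) : ℝ)) :=
    irrational_sqrt_intCast_iff.mpr ⟨hns, hd⟩
  set s : ℝ := √((b * b + 4 * m : ℤ) : ℝ) with hs
  have hs2 : s * s = (b : ℝ) * b + 4 * m := by
    rw [hs, Real.mul_self_sqrt (by exact_mod_cast hd)]
    push_cast; ring
  have hs0 : s ≠ 0 := hirr.ne_zero
  set t1 : ℝ := (b + s) / 2 with ht1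
  set t2 : ℝ := (b - s) / 2 with ht2
  have hsum : t1 + t2 = b := by rw [ht1, ht2]; ring
  have hprod : t1 * t2 = - m := by
    have : t1 * t2 = ((b : ℝ) * b - s * s) / 4 := by rw [ht1, ht2]; ring
    rw [this, hs2]; ring
  have hdif : t1 - t2 = s := by rw [ht1, ht2]; ring
  have ht10 : t1 ≠ 0 := by
    intro h0
    rw [h0, zero_mul] at hprod
    apply hm
    have : (m : ℝ) = 0 := by linarith
    exact_mod_cast this
  set N : Matrix X X ℝ := A.map (Int.castRingHom ℝ) with hN
  have hN3 : N * N * N = (t1 + t2) • (N * N) - (t1 * t2) • N := by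
    have := congrArg (fun A : Matrix X X ℤ => A.map (Int.castRingHom ℝ)) h
    simp only [map_mul'] at this
    rw [← hN] at this
    rw [this, hsum, hprod]
    ext x y
    simp only [Matrix.map_apply, Matrix.sub_apply, Matrix.add_apply, Matrix.smul_apply,
      smul_eq_mul, hN, Int.coe_castRingHom, Int.cast_mul, Int.cast_add, Matrix.mul_apply,
      Int.cast_sum]
    ring
  have hc0 : t1 * (t1 - t2) ≠ 0 := by rw [hdif]; exact mul_ne_zero ht10 hs0
  obtain ⟨k, hk⟩ := trace_idem ((t1 * (t1 - t2))⁻¹ • (N * N - t2 • N)) (by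
    have e1 : (N * N - t2 • N) * (N * N - t2 • N) = (t1 * (t1 - t2)) • (N * N - t2 • N) := by
      have e2 : (N * N - t2 • N) * N = t1 • (N * N - t2 • N) := by
        rw [Matrix.sub_mul, Matrix.smul_mul, hN3]; module
      rw [Matrix.mul_sub, ← Matrix.mul_assoc, Matrix.mul_smul, e2, Matrix.smul_mul, e2]
      module
    rw [Matrix.smul_mul, Matrix.mul_smul, e1, smul_smul, smul_smul, mul_assoc,
      inv_mul_cancel₀ hc0, mul_one])
  have htr : ∀ B : Matrix X X ℤ, trace (B.map (Int.castRingHom ℝ)) = ((trace B : ℤ) : ℝ) := by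
    intro B
    simp [trace, Matrix.diag]
  rw [trace_smul, trace_sub, trace_smul, hN, ← map_mul', htr, htr, h1, h2, smul_eq_mul] at hk
  simp only [Int.cast_zero, smul_eq_mul, mul_zero, sub_zero] at hk
  have hk0 : (k : ℝ) ≠ 0 := by
    intro h0
    rw [h0] at hk
    rcases mul_eq_zero.mp hk with h3 | h3
    · exact inv_ne_zero hc0 h3
    · exact hT (by exact_mod_cast h3)
  have e3 : (T : ℝ) = k * (t1 * s) := by
    rw [← hk, hdif] at *
    field_simp
  have e4 : (b : ℝ) * s = 2 * T / k - (b * b + 4 * m) := by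
    rw [e3, ht1]
    field_simp
    linear_combination -hs2
  have hb' : (b : ℝ) ≠ 0 := by exact_mod_cast hb
  have e5 : s = (((2 * T / k - (b * b + 4 * m)) / b : ℚ) : ℝ) := by
    push_cast
    rw [eq_div_iff hb', mul_comm, e4]
  rw [e5] at hirr
  exact hirr (Set.mem_range_self _)

end Pool.Agent.K4H54.CZ2
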