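import Pool.Agent.K4H54.CZ2.Krn

/-!
# Colmez's functions for independent points
-/

set_option autoImplicit false

open scoped Classical

namespace Pool.Agent.K4H54.CZ2

open Pool.Agent.Q11.CZ Matrix

variable {G : Type*} [Group G] [Fintype G] {c : G}
variable {X : Type*} [Fintype X] [MulAction G X]

omit [Fintype X] in
lemma kx_diag (x : X) (Φ : Finset X) :
    kx G x Φ x x = ((Finset.univ.filter fun h : G => h • x = x).card : ℤ) * vv Φ x := by
  unfold kx
  rw [Finset.card_filter]
  push_cast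
  rw [Finset.sum_mul]
  refine Finset.sum_congr rfl fun h _ => ?_
  by_cases hx : h • x = x
  · have : h⁻¹ • x = x := by rw [inv_smul_eq_iff, hx]
    rw [if_pos hx, if_pos hx, this, one_mul]
  · rw [if_neg hx, if_neg hx, zero_mul]

omit [Fintype X] in
lemma stab_card [MulAction.IsPretransitive G X] (x y : X) :
    (Finset.univ.filter fun h : G => h • x = x).card =
      (Finset.univ.filter fun h : G => h • y = y).card := by
  obtain ⟨g, rfl⟩ := MulAction.exists_smul_eq G x y
  refine Finset.card_bij' (fun h _ => g * h * g⁻¹) (fun h _ => g⁻¹ * h * g) ?_ ?_ ?_ ?_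
  · intro h hh
    simp only [Finset.mem_filter, Finset.mem_univ, true_and] at hh ⊢
    rw [mul_smul, mul_smul, inv_smul_smul, hh]
  · intro h hh
    simp only [Finset.mem_filter, Finset.mem_univ, true_and] at hh ⊢
    rw [mul_smul, mul_smul, hh, inv_smul_smul]
  · intro h _; group
  · intro h _; group

/-- for independent points the kernel is a multiple of the identity -/
theorem kernel_indep [MulAction.IsPretransitive G X] (hc : ∀ g, c * g = g * c) (hc2 : c * c = 1)
    (hfree : ∀ x : X, c • x ≠ x)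
    (hind : ∀ x y : X, y ≠ x → y ≠ c • x → ∃ g : G, g • x = x ∧ g • y = c • y)
    {k : Matrix X X ℤ} (hk : OI c k) (x₀ : X) : k = (k x₀ x₀) • (E0 c : Matrix X X ℤ) := by
  have hoff : ∀ x y : X, y ≠ x → y ≠ c • x → k x y = 0 := by
    intro x y h1 h2
    obtain ⟨g, h3, h4⟩ := hind x y h1 h2
    have h5 := hk.inv g x y
    rw [h3, h4, hk.odd] at h5
    omega
  have hd : ∀ x, k x x = k x₀ x₀ := by
    intro x
    obtain ⟨g, rfl⟩ := MulAction.exists_smul_eq G x₀ x
    rw [hk.inv]
  ext x y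
  rw [Matrix.smul_apply, smul_eq_mul, E0_apply]
  by_cases h1 : y = x
  · subst h1
    rw [hd, if_pos rfl, if_neg (hfree y).symm]; ring
  by_cases h2 : y = c • x
  · subst h2
    rw [hk.odd, hd, ccx hc2, if_pos rfl, if_neg (hfree x).symm]; ring
  · rw [if_neg (Ne.symm h1), if_neg (fun h => h2 (by rw [h, ccx hc2])), hoff x y h1 h2]
    ring

theorem a0_indep [MulAction.IsPretransitive G X] (hc : ∀ g, c * g = g * c) (hc2 : c * c = 1)
    (hind : ∀ x y : X, y ≠ x → y ≠ c • x → ∃ g : G, g • x = x ∧ g • y = c • y)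
    {Φ Φ' : Finset X} (hΦ : IsHalf c Φ) (hΦ' : IsHalf c Φ') {x x' : X} (hx : x ∈ Φ)
    (hx' : x' ∈ Φ') : (a0 x' Φ' : G → ℚ) = a0 x Φ := by
  have h1 := kernel_indep hc hc2 (half_free hΦ) hind (oi_kx (G := G) hc x hΦ) x
  have h2 := kernel_indep hc hc2 (half_free hΦ') hind (oi_kx (G := G) hc x' hΦ') x'
  have v1 : vv Φ x = 1 := by unfold vv; rw [if_pos hx]
  have v2 : vv Φ' x' = 1 := by unfold vv; rw [if_pos hx']
  rw [kx_diag, v1, mul_one] at h1
  rw [kx_diag, v2, mul_one, stab_card x' x] at h2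
  funext g
  rw [a0_kx, a0_kx, h1, h2]

end Pool.Agent.K4H54.CZ2
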