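import Pool.Agent.K4H54.CZ2.Mat

/-!
# Odd invariant kernels on doubly transitive sets of pairs
-/

set_option autoImplicit false

open scoped Classical

namespace Pool.Agent.K4H54.CZ2

open Pool.Agent.Q11.CZ Matrix

variable {G : Type*} [Group G] {c : G}
variable {X : Type*} [Fintype X] [MulAction G X]

variable (X) in
/-- double transitivity on the pairs `{x, c x}` -/
def DT (c : G) : Prop := ∀ x y x' y' : X, y ≠ x → y ≠ c • x → y' ≠ x' → y' ≠ c • x' →
  ∃ g : G, (g • x = x' ∨ g • x = c • x') ∧ (g • y = y' ∨ g • y = c • y')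

/-- odd invariant kernel -/
structure OI (c : G) (A : Matrix X X ℤ) : Prop where
  inv : ∀ (g : G) (x y : X), A (g • x) (g • y) = A x y
  odd : ∀ x y : X, A x (c • y) = - A x y

/-- sign kernel -/
structure SK (c : G) (A : Matrix X X ℤ) : Prop extends OI c A where
  diag : ∀ x : X, A x x = 0
  sgn : ∀ x y : X, y ≠ x → y ≠ c • x → A x y = 1 ∨ A x y = -1

/-- the kernel of the identity on odd functions -/
noncomputable def E0 (c : G) : Matrix X X ℤ := 1 - P X c

section
variable (hc : ∀ g, c * g = g * c) (hc2 : c * c = 1)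

omit [Fintype X] in
include hc2 in
lemma ccx (x : X) : c • c • x = x := by rw [← mul_smul, hc2, one_smul]

omit [Fintype X] in
include hc in
lemma cg (g : G) (x : X) : g • c • x = c • g • x := by rw [← mul_smul, ← mul_smul, hc]

omit [Fintype X] in
include hc2 in
lemma OI.oddl {A : Matrix X X ℤ} (h : OI c A) (x y : X) : A (c • x) y = - A x y := by
  rw [← ccx hc2 y, h.inv, h.odd, ccx hc2]

omit [Fintype X] in
include hc2 in
lemma SK.diagc {A : Matrix X X ℤ} (h : SK c A) (x : X) : A x (c • x) = 0 := by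
  rw [h.odd, h.diag, neg_zero]

omit [Fintype X] in
include hc hc2 in
/-- an even invariant function is constant off the diagonal -/
lemma const_of {B : X → X → ℤ} (hDT : DT X c) (hinv : ∀ (g : G) (x y : X), B (g • x) (g • y) = B x y)
    (h1 : ∀ x y : X, B (c • x) y = B x y) (h2 : ∀ x y : X, B x (c • y) = B x y) :
    ∃ b : ℤ, ∀ x y : X, y ≠ x → y ≠ c • x → B x y = b := by
  by_cases h : ∃ x y : X, y ≠ x ∧ y ≠ c • x
  · obtain ⟨x0, y0, h3, h4⟩ := h
    refine ⟨B x0 y0, fun x y h5 h6 => ?_⟩
    obtain ⟨g, h7, h8⟩ := hDT x0 y0 x y h3 h4 h5 h6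
    rw [← hinv g x0 y0]
    rcases h7 with h7 | h7 <;> rcases h8 with h8 | h8 <;> rw [h7, h8] <;> simp [h1, h2]
  · push Not at h
    exact ⟨0, fun x y h5 h6 => absurd (h x y h5) h6⟩

omit [Fintype X] in
include hc hc2 in
lemma sk_sym {A : Matrix X X ℤ} (hDT : DT X c) (hA : SK c A) :
    (∀ x y, A y x = A x y) ∨ (∀ x y, A y x = - A x y) := by
  obtain ⟨e, he⟩ := const_of (B := fun x y => A x y * A y x) hc hc2 hDT
    (fun g x y => by simp only [hA.inv]) (fun x y => by simp only [hA.oddl hc2, hA.odd]; ring)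
    (fun x y => by simp only [hA.oddl hc2, hA.odd]; ring)
  by_cases h : ∃ x y : X, y ≠ x ∧ y ≠ c • x
  · obtain ⟨x0, y0, h3, h4⟩ := h
    have hd : ∀ x y : X, (y = x ∨ y = c • x) → A x y = 0 ∧ A y x = 0 := by
      rintro x y (rfl | rfl)
      · exact ⟨hA.diag _, hA.diag _⟩
      · exact ⟨hA.diagc hc2 _, by rw [hA.oddl hc2, hA.diag, neg_zero]⟩
    have hsw : ∀ x y : X, y ≠ c • x → x ≠ c • y := by
      intro x y h5 h6
      apply h5
      rw [h6, ccx hc2]
    have e1 := he x0 y0 h3 h4
    have hee : e = 1 ∨ e = -1 := by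
      rw [← e1]
      rcases hA.sgn x0 y0 h3 h4 with h5 | h5 <;>
        rcases hA.sgn y0 x0 h3.symm (hsw _ _ h4) with h6 | h6 <;> simp [h5, h6]
    have key : ∀ x y : X, A y x = e * A x y := by
      intro x y
      by_cases h7 : y = x ∨ y = c • x
      · rw [(hd x y h7).1, (hd x y h7).2, mul_zero]
      · push Not at h7
        have e2 : A x y * A y x = e := he x y h7.1 h7.2
        rw [← e2]
        rcases hA.sgn x y h7.1 h7.2 with h5 | h5 <;> simp [h5]
    rcases hee with h5 | h5
    · left; intro x y; rw [key, h5, one_mul]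
    · right; intro x y; rw [key, h5, neg_one_mul]
  · push Not at h
    left
    intro x y
    by_cases h1 : y = x
    · rw [h1]
    · rw [h x y h1, hA.diagc hc2, hA.oddl hc2, hA.diag, neg_zero]

include hc hc2 in
lemma sk_off {A : Matrix X X ℤ} (hDT : DT X c) (hA : SK c A) :
    ∃ b : ℤ, ∀ x z : X, z ≠ x → z ≠ c • x → (A * A) x z = b * A x z := by
  have hinv : ∀ (g : G) (x y : X), (A * A) (g • x) (g • y) = (A * A) x y := by
    intro g x y
    simp only [Matrix.mul_apply]
    rw [← Equiv.sum_comp (MulAction.toPerm g)]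
    simp only [MulAction.toPerm_apply, hA.inv]
  have hod1 : ∀ x y : X, (A * A) (c • x) y = - (A * A) x y := by
    intro x y
    simp only [Matrix.mul_apply, hA.oddl hc2, neg_mul, Finset.sum_neg_distrib]
  have hod2 : ∀ x y : X, (A * A) x (c • y) = - (A * A) x y := by
    intro x y
    simp only [Matrix.mul_apply, hA.odd, mul_neg, Finset.sum_neg_distrib]
  obtain ⟨b, hb⟩ := const_of (B := fun x y => (A * A) x y * A x y) hc hc2 hDT
    (fun g x y => by simp only [hinv, hA.inv])
    (fun x y => by simp only [hod1, hA.oddl hc2]; ring)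
    (fun x y => by simp only [hod2, hA.odd]; ring)
  refine ⟨b, fun x z h1 h2 => ?_⟩
  have h3 : (A * A) x z * A x z = b := hb x z h1 h2
  rw [← h3]
  rcases hA.sgn x z h1 h2 with h5 | h5 <;> simp [h5]

variable (hfree : ∀ x : X, c • x ≠ x)

include hfree in
lemma card_off (x : X) :
    ((Finset.univ.filter fun y : X => y ≠ x ∧ y ≠ c • x).card : ℤ) = Fintype.card X - 2 := by
  have h1 : (Finset.univ.filter fun y : X => y ≠ x ∧ y ≠ c • x) = Finset.univ \ {x, c • x} := by
    ext y
    simp
  rw [h1, Finset.card_sdiff_of_subset (Finset.subset_univ _), Finset.card_univ,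
    Finset.card_pair (hfree x).symm]
  have h2 : 2 ≤ Fintype.card X := by
    rw [← Finset.card_pair (hfree x).symm]
    exact Finset.card_le_univ _
  push_cast [h2]
  ring

include hc2 hfree in
lemma sk_diag {A : Matrix X X ℤ} (hA : SK c A) {e : ℤ}
    (he : ∀ x y, A y x = e * A x y) (x : X) :
    (A * A) x x = e * (Fintype.card X - 2) := by
  rw [← card_off (c := c) hfree x, Finset.card_filter]
  push_cast
  rw [Finset.mul_sum, Matrix.mul_apply]
  refine Finset.sum_congr rfl fun y _ => ?_
  rw [he x y]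
  by_cases h : y ≠ x ∧ y ≠ c • x
  · rw [if_pos h]
    rcases hA.sgn x y h.1 h.2 with h5 | h5 <;> simp [h5]
  · rw [if_neg h]
    rw [not_and_or, not_not, not_not] at h
    rcases h with rfl | rfl
    · rw [hA.diag]; ring
    · rw [hA.diagc hc2]; ring

lemma E0_apply (x y : X) : (E0 c : Matrix X X ℤ) x y =
    (if x = y then 1 else 0) - (if x = c • y then 1 else 0) := by
  simp [E0, P, Matrix.one_apply]

include hc hc2 hfree in
/-- the quadratic relation -/
lemma sk_sq {A : Matrix X X ℤ} (hDT : DT X c) (hA : SK c A) {e : ℤ}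
    (he : ∀ x y, A y x = e * A x y) :
    ∃ b : ℤ, A * A = b • A + (e * (Fintype.card X - 2)) • E0 c := by
  obtain ⟨b, hb⟩ := sk_off hc hc2 hDT hA
  refine ⟨b, ?_⟩
  ext x z
  rw [Matrix.add_apply, Matrix.smul_apply, Matrix.smul_apply, E0_apply, smul_eq_mul, smul_eq_mul]
  by_cases h1 : z = x
  · subst h1
    rw [sk_diag hc2 hfree hA he, hA.diag, if_pos rfl, if_neg (hfree z).symm]
    ring
  · by_cases h2 : z = c • x
    · subst h2
      have : (A * A) x (c • x) = - (A * A) x x := by
        simp only [Matrix.mul_apply, hA.odd, mul_neg, Finset.sum_neg_distrib]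
      rw [this, sk_diag hc2 hfree hA he, hA.diagc hc2, ccx hc2, if_neg (hfree x).symm, if_pos rfl]
      ring
    · rw [hb x z h1 h2, if_neg (fun h => h1 h.symm), if_neg]
      · ring
      · intro h
        apply h2
        rw [h, ccx hc2]

include hc2 in
lemma mul_E0 {A : Matrix X X ℤ} (hA : OI c A) : A * E0 c = (2 : ℤ) • A := by
  unfold E0
  rw [mul_sub, mul_one]
  ext x y
  rw [Matrix.sub_apply, mul_P, hA.odd, Matrix.smul_apply, smul_eq_mul]
  ring

end

end Pool.Agent.K4H54.CZ2
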