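import Pool.Agent.K4H54.CZ2.Cnf

/-!
# Colmez's functions as class functions of odd kernels
-/

set_option autoImplicit false

open scoped Classical

namespace Pool.Agent.K4H54.CZ2

open Pool.Agent.Q11.CZ Matrix

variable {G : Type*} [Group G] [Fintype G] {c : G}
variable {X : Type*} [Fintype X] [MulAction G X]

/-- the sign function of a half-system -/
noncomputable def vv (Φ : Finset X) (x : X) : ℤ := if x ∈ Φ then 1 else -1

omit [Fintype G] [Fintype X] in
lemma vv_c {Φ : Finset X} (hΦ : IsHalf c Φ) (x : X) : vv Φ (c • x) = - vv Φ x := by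
  unfold vv
  by_cases h : x ∈ Φ
  · rw [if_neg (fun h1 => ((hΦ x).mp h1) h), if_pos h]
  · rw [if_pos ((hΦ x).mpr h), if_neg h]; norm_num

/-- the kernel of a point and a half-system -/
noncomputable def kx (G : Type*) [Group G] [Fintype G] [MulAction G X] (x : X) (Φ : Finset X) :
    Matrix X X ℤ :=
  fun y z => ∑ h : G, if h • x = y then vv Φ (h⁻¹ • z) else 0

lemma D_kx (x : X) (Φ : Finset X) (g : G) :
    D (kx G x Φ) g = ∑ h : G, vv Φ ((h⁻¹ * g * h) • x) := by
  unfold D kx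
  rw [Finset.sum_comm]
  refine Finset.sum_congr rfl fun h _ => ?_
  rw [Finset.sum_eq_single (h • x)]
  · rw [if_pos rfl, mul_smul, mul_smul]
  · intro y _ hy
    rw [if_neg (Ne.symm hy)]
  · intro hy
    exact absurd (Finset.mem_univ _) hy

lemma a0_kx (x : X) (Φ : Finset X) (g : G) :
    a0 x Φ g = 1 / 2 + (D (kx G x Φ) g : ℚ) / (2 * Fintype.card G) := by
  rw [D_kx]
  unfold a0
  have h1 : ((Finset.univ.filter fun h : G => (h⁻¹ * g * h) • x ∈ Φ).card : ℚ) =
      ∑ h : G, (1 + ((vv Φ ((h⁻¹ * g * h) • x) : ℤ) : ℚ)) / 2 := by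
    rw [Finset.card_filter]
    push_cast
    refine Finset.sum_congr rfl fun h _ => ?_
    unfold vv
    split_ifs <;> norm_num
  have h0 : (Fintype.card G : ℚ) ≠ 0 := card_ne
  rw [h1, ← Finset.sum_div, Finset.sum_add_distrib]
  push_cast
  rw [Finset.sum_const, Finset.card_univ, nsmul_eq_mul]
  field_simp

lemma oi_kx (hc : ∀ g, c * g = g * c) (x : X) {Φ : Finset X} (hΦ : IsHalf c Φ) :
    OI c (kx G x Φ) := by
  constructor
  · intro g y z
    unfold kx
    rw [← Equiv.sum_comp (Equiv.mulLeft g)]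
    refine Finset.sum_congr rfl fun h _ => ?_
    simp only [Equiv.coe_mulLeft, mul_smul, smul_left_cancel_iff, _root_.mul_inv_rev, inv_smul_smul]
  · intro y z
    unfold kx
    rw [← Finset.sum_neg_distrib]
    refine Finset.sum_congr rfl fun h _ => ?_
    rw [cg hc, vv_c hΦ]
    split_ifs <;> simp

/-- the kernel of a half-system -/
noncomputable def kT (G : Type*) [Group G] [Fintype G] [MulAction G X] (Φ : Finset X) :
    Matrix X X ℤ :=
  ∑ x ∈ Φ, kx G x Φ

lemma D_kT (Φ : Finset X) (g : G) : D (kT G Φ) g = ∑ x ∈ Φ, D (kx G x Φ) g := by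
  simp only [D]
  rw [Finset.sum_comm]
  refine Finset.sum_congr rfl fun y _ => ?_
  unfold kT
  rw [Matrix.sum_apply]

lemma T_kT (Φ : Finset X) (g : G) :
    T Φ g = (Φ.card : ℚ) / 2 + (D (kT G Φ) g : ℚ) / (2 * Fintype.card G) := by
  unfold T
  rw [Finset.sum_congr rfl (fun x _ => a0_kx x Φ g), Finset.sum_add_distrib]
  congr 1
  · rw [Finset.sum_const, nsmul_eq_mul]; ring
  · rw [D_kT, Int.cast_sum, Finset.sum_div]

lemma oi_kT (hc : ∀ g, c * g = g * c) {Φ : Finset X} (hΦ : IsHalf c Φ) : OI c (kT G Φ) := by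
  constructor
  · intro g y z
    unfold kT
    rw [Matrix.sum_apply, Matrix.sum_apply]
    exact Finset.sum_congr rfl fun x _ => (oi_kx hc x hΦ).inv g y z
  · intro y z
    unfold kT
    rw [Matrix.sum_apply, Matrix.sum_apply, ← Finset.sum_neg_distrib]
    exact Finset.sum_congr rfl fun x _ => (oi_kx hc x hΦ).odd y z

lemma kT_apply (hc : ∀ g, c * g = g * c) {Φ : Finset X} (hΦ : IsHalf c Φ) (y z : X) :
    2 * kT G Φ y z = ∑ h : G, vv Φ (h⁻¹ • y) * vv Φ (h⁻¹ • z) := by
  have h1 : kT G Φ y z = ∑ h : G, if h⁻¹ • y ∈ Φ then vv Φ (h⁻¹ • z) else 0 := by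
    unfold kT kx
    rw [Matrix.sum_apply, Finset.sum_comm]
    refine Finset.sum_congr rfl fun h _ => ?_
    by_cases hy : h⁻¹ • y ∈ Φ
    · rw [if_pos hy, Finset.sum_eq_single (h⁻¹ • y)]
      · rw [if_pos (smul_inv_smul h y)]
      · intro x _ hx
        rw [if_neg]
        rintro rfl
        exact hx (inv_smul_smul h x).symm
      · intro h2; exact absurd hy h2
    · rw [if_neg hy]
      refine Finset.sum_eq_zero fun x hx => ?_
      rw [if_neg]
      rintro rfl
      rw [inv_smul_smul] at hy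
      exact hy hx
  have h2 : ∑ h : G, vv Φ (h⁻¹ • z) = 0 := by
    have h3 : ∑ h : G, vv Φ (h⁻¹ • z) = ∑ h : G, - vv Φ (h⁻¹ • z) := by
      conv_lhs => rw [← Equiv.sum_comp (Equiv.mulLeft c⁻¹)]
      refine Finset.sum_congr rfl fun h _ => ?_
      rw [Equiv.coe_mulLeft, _root_.mul_inv_rev, inv_inv, ← hc, mul_smul, vv_c hΦ]
    rw [Finset.sum_neg_distrib] at h3
    omega
  have h3 : ∑ h : G, vv Φ (h⁻¹ • y) * vv Φ (h⁻¹ • z) =
      ∑ h : G, (2 * (if h⁻¹ • y ∈ Φ then vv Φ (h⁻¹ • z) else 0) - vv Φ (h⁻¹ • z)) := by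
    refine Finset.sum_congr rfl fun h _ => ?_
    conv_lhs => enter [1]; unfold vv
    split_ifs <;> ring
  rw [h3, Finset.sum_sub_distrib, h2, ← Finset.mul_sum, h1, sub_zero]

lemma kT_symm (hc : ∀ g, c * g = g * c) {Φ : Finset X} (hΦ : IsHalf c Φ) (y z : X) :
    kT G Φ z y = kT G Φ y z := by
  have h1 := kT_apply (G := G) hc hΦ y z
  have h2 := kT_apply (G := G) hc hΦ z y
  have h3 : ∑ h : G, vv Φ (h⁻¹ • z) * vv Φ (h⁻¹ • y) =
      ∑ h : G, vv Φ (h⁻¹ • y) * vv Φ (h⁻¹ • z) :=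
    Finset.sum_congr rfl fun h _ => mul_comm _ _
  rw [h3, ← h1] at h2
  omega

lemma zinv_affine {f : G → ℚ} (hf : ZInv f) (a b : ℚ) : ZInv (fun g => a + b * f g) := by
  intro g g' h
  simp only [hf g g' h]

lemma zinv_a0 {x : X} {Φ : Finset X} (h : ZInv (fun g : G => (D (kx G x Φ) g : ℚ))) :
    ZInv (a0 x Φ : G → ℚ) := by
  have h1 : (a0 x Φ : G → ℚ) =
      fun g => 1 / 2 + (1 / (2 * (Fintype.card G : ℚ))) * (D (kx G x Φ) g : ℚ) := by
    funext g
    rw [a0_kx]; ring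
  rw [h1]
  exact zinv_affine h _ _

lemma zinv_T {Φ : Finset X} (h : ZInv (fun g : G => (D (kT G Φ) g : ℚ))) :
    ZInv (T Φ : G → ℚ) := by
  have h1 : (T Φ : G → ℚ) =
      fun g => (Φ.card : ℚ) / 2 + (1 / (2 * (Fintype.card G : ℚ))) * (D (kT G Φ) g : ℚ) := by
    funext g
    rw [T_kT]; ring
  rw [h1]
  exact zinv_affine h _ _

lemma zinv_comb {M N : Matrix X X ℤ} (hM : ZInv (fun g : G => (D M g : ℚ)))
    (hN : ZInv (fun g : G => (D N g : ℚ))) (a b : ℤ) :
    ZInv (fun g : G => (D (a • M + b • N) g : ℚ)) := by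
  intro g g' h
  have h1 : (D M g : ℚ) = D M g' := hM g g' h
  have h2 : (D N g : ℚ) = D N g' := hN g g' h
  simp only [D_add]
  push_cast
  rw [h1, h2]

lemma zinv_E0 (hc : ∀ g, c * g = g * c) (hc2 : c * c = 1) (d : ℤ) :
    ZInv (fun g : G => (D (d • (E0 c : Matrix X X ℤ)) g : ℚ)) := by
  have h1 := D_zinv (oi_E0 (X := X) hc hc2).inv (frob_E0 hc hc2)
  have h2 := zinv_comb h1 h1 d 0
  rwa [zero_smul, add_zero] at h2

theorem zinv_sym (hc : ∀ g, c * g = g * c) (hc2 : c * c = 1) {Φ : Finset X}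
    (hΦ : IsHalf c Φ) (hDT : DT X c) {k : Matrix X X ℤ} (hk : OI c k)
    (hks : ∀ x y, k y x = k x y) (hn : Φ.card % 4 = 2 → IsSquare ((Φ.card : ℤ) - 1)) :
    ZInv (fun g : G => (D k g : ℚ)) := by
  obtain ⟨d, κ, h | h⟩ := decomp hc hc2 hDT hk
  · rw [h.2]; exact zinv_E0 hc hc2 d
  · obtain ⟨hκ, A, hA, rfl⟩ := h
    have h1 := D_zinv (oi_E0 (X := X) hc hc2).inv (frob_E0 hc hc2)
    refine zinv_comb h1 ?_ d κ
    refine D_zinv hA.inv (frob_sk_sym hc hc2 hΦ hDT hA ?_ hn)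
    intro x y
    have h2 := hks x y
    simp only [Matrix.add_apply, Matrix.smul_apply, smul_eq_mul, E0_apply] at h2
    have h3 : (y = x) ↔ (x = y) := eq_comm
    have h4 : (y = c • x) ↔ (x = c • y) := by
      constructor
      · rintro rfl; exact (ccx hc2 x).symm
      · rintro rfl; exact (ccx hc2 y).symm
    simp only [h3, h4] at h2
    exact mul_left_cancel₀ hκ (by linarith)

lemma D_inv (k : Matrix X X ℤ) (g : G) : D k g⁻¹ = D k.transpose g := by
  unfold D
  rw [← Equiv.sum_comp (MulAction.toPerm g)]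
  simp only [MulAction.toPerm_apply, inv_smul_smul, Matrix.transpose_apply]

theorem zinv_symm_part (hc : ∀ g, c * g = g * c) (hc2 : c * c = 1) {Φ : Finset X}
    (hΦ : IsHalf c Φ) (hDT : DT X c) (x : X)
    (hn : Φ.card % 4 = 2 → IsSquare ((Φ.card : ℤ) - 1)) :
    ZInv (fun g : G => a0 x Φ g + a0 x Φ g⁻¹) := by
  have hk := oi_kx (G := G) hc x hΦ
  have h1 : OI c (kx G x Φ + (kx G x Φ).transpose) := by
    constructor
    · intro g y z
      simp only [Matrix.add_apply, Matrix.transpose_apply, hk.inv]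
    · intro y z
      simp only [Matrix.add_apply, Matrix.transpose_apply, hk.odd, hk.oddl hc2]
      ring
  have h2 := zinv_sym hc hc2 hΦ hDT h1 (fun y z => by
    simp only [Matrix.add_apply, Matrix.transpose_apply]; ring) hn
  have h3 : (fun g : G => a0 x Φ g + a0 x Φ g⁻¹) = fun g => 1 + (1 / (2 * (Fintype.card G : ℚ))) *
      (D (kx G x Φ + (kx G x Φ).transpose) g : ℚ) := by
    funext g
    have h4 := D_add (kx G x Φ) (kx G x Φ).transpose 1 1 g
    rw [one_smul, one_smul] at h4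
    rw [a0_kx, a0_kx, D_inv, h4]
    push_cast
    ring
  rw [h3]
  exact zinv_affine h2 _ _

theorem zinv_any (hc : ∀ g, c * g = g * c) (hc2 : c * c = 1) {Φ : Finset X}
    (hΦ : IsHalf c Φ) (hDT : DT X c) {k : Matrix X X ℤ} (hk : OI c k)
    (hn : Φ.card % 4 = 2 → IsSquare ((Φ.card : ℤ) - 1)) (hn0 : Φ.card % 4 ≠ 0)
    (hn2 : Φ.card ≠ 2) :
    ZInv (fun g : G => (D k g : ℚ)) := by
  obtain ⟨d, κ, h | h⟩ := decomp hc hc2 hDT hk
  · rw [h.2]; exact zinv_E0 hc hc2 d
  · obtain ⟨hκ, A, hA, rfl⟩ := h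
    have h1 := D_zinv (oi_E0 (X := X) hc hc2).inv (frob_E0 hc hc2)
    refine zinv_comb h1 ?_ d κ
    refine D_zinv hA.inv ?_
    rcases sk_sym hc hc2 hDT hA with h2 | h2
    · exact frob_sk_sym hc hc2 hΦ hDT hA h2 hn
    · exact frob_sk_anti hc hc2 hΦ hDT hA h2 hn0 hn2

/-- the split case. -/
theorem zinv_split (hc : ∀ g, c * g = g * c) (hc2 : c * c = 1) {Φ : Finset X}
    (hΦ : IsHalf c Φ) (hDT : DT X c) (S : X → ℤ) (hS : ∀ x, S x = 1 ∨ S x = -1)
    (hSc : ∀ x, S (c • x) = - S x) (hSg : ∀ (g : G) (x y : X), S (g • x) * S (g • y) = S x * S y)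
    {k : Matrix X X ℤ} (hk : OI c k) : ZInv (fun g : G => (D k g : ℚ)) := by
  have hSS : ∀ x, S x * S x = 1 := fun x => by rcases hS x with h | h <;> rw [h] <;> norm_num
  obtain ⟨d, κ, h⟩ := decomp hc hc2 hDT hk
  obtain ⟨κ', hκ'⟩ := const_of (B := fun x y => k x y * (S x * S y)) hc hc2 hDT
    (fun g x y => by simp only [hk.inv, hSg])
    (fun x y => by simp only [hk.oddl hc2, hSc]; ring)
    (fun x y => by simp only [hk.odd, hSc]; ring)
  have hdiag : ∀ x, k x x = d := by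
    intro x
    have hfree := half_free hΦ x
    rcases h with h | ⟨_, A, hA, h⟩
    · rw [h.2, Matrix.smul_apply, smul_eq_mul, E0_apply, if_pos rfl, if_neg hfree.symm]; ring
    · rw [h, Matrix.add_apply, Matrix.smul_apply, Matrix.smul_apply, smul_eq_mul, smul_eq_mul,
        E0_apply, if_pos rfl, if_neg hfree.symm, hA.diag]; ring
  set Q : Matrix X X ℤ := fun x y => S x * S y with hQ
  have hQinv : ∀ (g : G) (x y : X), Q (g • x) (g • y) = Q x y := fun g x y => hSg g x y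
  have hQQ : Q * Q = (Fintype.card X : ℤ) • Q := by
    ext x y
    rw [Matrix.mul_apply, Matrix.smul_apply, smul_eq_mul]
    simp only [hQ]
    have : ∀ z ∈ (Finset.univ : Finset X), S x * S z * (S z * S y) = S x * S y := by
      intro z _
      linear_combination (S x * S y) * hSS z
    rw [Finset.sum_congr rfl this, Finset.sum_const, Finset.card_univ, nsmul_eq_mul]
  have hkQ : k = (d - κ') • (E0 c : Matrix X X ℤ) + κ' • Q := by
    ext x y
    rw [Matrix.add_apply, Matrix.smul_apply, Matrix.smul_apply, smul_eq_mul, smul_eq_mul,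
      E0_apply]
    by_cases h1 : y = x
    · subst h1
      rw [hdiag, if_pos rfl, if_neg (half_free hΦ y).symm, hQ]
      simp only [hSS]; ring
    by_cases h2 : y = c • x
    · subst h2
      rw [hk.odd, hdiag, ccx hc2, if_pos rfl, if_neg (half_free hΦ x).symm, hQ]
      simp only [hSc]
      linear_combination κ' * hSS x
    · rw [if_neg (Ne.symm h1), if_neg (fun h => h2 (by rw [h, ccx hc2])), hQ]
      have h3 : k x y * (S x * S y) = κ' := hκ' x y h1 h2
      simp only [← h3]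
      linear_combination (-(k x y) * (S y * S y)) * hSS x - k x y * hSS y
  have h1 := D_zinv (oi_E0 (X := X) hc hc2).inv (frob_E0 hc hc2)
  rw [hkQ]
  refine zinv_comb h1 ?_ _ _
  by_cases hX : (Fintype.card X : ℤ) = 0
  · have : IsEmpty X := by
      rw [← Fintype.card_eq_zero_iff]; exact_mod_cast hX
    intro g g' _
    simp [D]
  · refine D_zinv hQinv (frob_of_cubic Q _ (-(Fintype.card X : ℤ)) hX (neg_ne_zero.mpr hX) ?_ ?_)
    · omega
    · rw [hQQ, Matrix.smul_mul, hQQ]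
      module

/-- independent points. -/
theorem zinv_indep [MulAction.IsPretransitive G X] (hc : ∀ g, c * g = g * c) (hc2 : c * c = 1)
    (hfree : ∀ x : X, c • x ≠ x)
    (hind : ∀ x y : X, y ≠ x → y ≠ c • x → ∃ g : G, g • x = x ∧ g • y = c • y)
    {k : Matrix X X ℤ} (hk : OI c k) : ZInv (fun g : G => (D k g : ℚ)) := by
  have hoff : ∀ x y : X, y ≠ x → y ≠ c • x → k x y = 0 := by
    intro x y h1 h2
    obtain ⟨g, h3, h4⟩ := hind x y h1 h2
    have h5 := hk.inv g x y
    rw [h3, h4, hk.odd] at h5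
    omega
  have hd : ∃ d : ℤ, ∀ x, k x x = d := by
    by_cases hX : Nonempty X
    swap
    · exact ⟨0, fun x => absurd ⟨x⟩ hX⟩
    obtain ⟨x0⟩ := hX
    refine ⟨k x0 x0, fun x => ?_⟩
    obtain ⟨g, rfl⟩ := MulAction.exists_smul_eq G x0 x
    rw [hk.inv]
  obtain ⟨d, hd⟩ := hd
  have : k = d • (E0 c : Matrix X X ℤ) := by
    ext x y
    rw [Matrix.smul_apply, smul_eq_mul, E0_apply]
    by_cases h1 : y = x
    · subst h1
      rw [hd, if_pos rfl, if_neg (hfree y).symm]; ring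
    by_cases h2 : y = c • x
    · subst h2
      rw [hk.odd, hd, ccx hc2, if_pos rfl, if_neg (hfree x).symm]; ring
    · rw [if_neg (Ne.symm h1), if_neg (fun h => h2 (by rw [h, ccx hc2])), hoff x y h1 h2]
      ring
  rw [this]
  exact zinv_E0 hc hc2 d

end Pool.Agent.K4H54.CZ2
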