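import Pool.Agent.Q11.CZ.Art

/-!
# Traces of invariant kernels modulo primes
-/

set_option autoImplicit false

open scoped Classical

namespace Pool.Agent.K4H54.CZ2

open Pool.Agent.Q11.CZ Matrix

variable {G : Type*} [Group G] [Fintype G]
variable {X : Type*} [Fintype X] [MulAction G X]

variable (X) in
/-- the permutation matrix of `g` -/
noncomputable def P (g : G) : Matrix X X ℤ := fun y x => if y = g • x then 1 else 0

omit [Fintype G] in
lemma P_mul (g h : G) : P X (g * h) = P X g * P X h := by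
  ext y x
  simp only [P, Matrix.mul_apply]
  rw [Finset.sum_eq_single (h • x)]
  · simp [mul_smul]
  · intro b _ hb
    simp [hb]
  · intro hb
    exact absurd (Finset.mem_univ _) hb

omit [Fintype G] [Fintype X] in
lemma P_one : P X (1 : G) = 1 := by
  ext y x
  simp [P, Matrix.one_apply]

omit [Fintype G] in
lemma P_pow (g : G) (n : ℕ) : P X (g ^ n) = P X g ^ n := by
  induction n with
  | zero => simp [P_one]
  | succ n ih => rw [pow_succ, pow_succ, P_mul, ih]

omit [Fintype G] in
lemma mul_P (M : Matrix X X ℤ) (g : G) (x y : X) : (M * P X g) x y = M x (g • y) := by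
  simp [Matrix.mul_apply, P]

omit [Fintype G] in
lemma P_mul' (M : Matrix X X ℤ) (g : G) (x y : X) : (P X g * M) x y = M (g⁻¹ • x) y := by
  simp only [Matrix.mul_apply, P]
  rw [Finset.sum_eq_single (g⁻¹ • x)]
  · simp
  · intro b _ hb
    have : x ≠ g • b := by
      rintro rfl
      exact hb (by simp)
    simp [this]
  · intro hb
    exact absurd (Finset.mem_univ _) hb

omit [Fintype G] in
lemma comm_of_inv {M : Matrix X X ℤ} (h : ∀ (g : G) (x y : X), M (g • x) (g • y) = M x y) (g : G) :
    Commute M (P X g) := by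
  ext x y
  rw [mul_P, P_mul', ← h g⁻¹ x (g • y), inv_smul_smul]

/-- the class function of a kernel -/
noncomputable def D (M : Matrix X X ℤ) (g : G) : ℤ := ∑ x : X, M x (g • x)

omit [Fintype G] in
lemma D_eq (M : Matrix X X ℤ) (g : G) : D M g = trace (M * P X g) := by
  simp only [D, trace, Matrix.diag]
  exact Finset.sum_congr rfl fun x _ => (mul_P M g x x).symm

/-- `M ^ p = M` modulo all large primes `p`. -/
def Frob (M : Matrix X X ℤ) : Prop := ∃ B : ℕ, ∀ p : ℕ, B < p → p.Prime →
  (M.map (Int.castRingHom (ZMod p))) ^ p = M.map (Int.castRingHom (ZMod p))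

lemma map_pow' (M : Matrix X X ℤ) {S : Type*} [CommRing S] (f : ℤ →+* S) (n : ℕ) :
    (M ^ n).map f = (M.map f) ^ n :=
  map_pow f.mapMatrix M n

lemma map_mul' (M N : Matrix X X ℤ) {S : Type*} [CommRing S] (f : ℤ →+* S) :
    (M * N).map f = M.map f * N.map f :=
  map_mul f.mapMatrix M N

theorem D_pow {M : Matrix X X ℤ} (hM : ∀ (g : G) (x y : X), M (g • x) (g • y) = M x y)
    (hF : Frob M) (g : G) {j : ℕ} (hj : j.Coprime (orderOf g)) : D M (g ^ j) = D M g := by
  obtain ⟨B, hB⟩ := hF
  have ho : NeZero (orderOf g) := ⟨(orderOf_pos g).ne'⟩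
  have hu : IsUnit ((j : ZMod (orderOf g))) := by
    rwa [ZMod.isUnit_iff_coprime]
  obtain ⟨p, hp, hpp, hpj⟩ := Nat.forall_exists_prime_gt_and_eq_mod hu
    (B + (D M (g ^ j) - D M g).natAbs)
  have hfact : Fact p.Prime := ⟨hpp⟩
  have hgp : g ^ p = g ^ j := by
    rw [pow_eq_pow_iff_modEq, ← ZMod.natCast_eq_natCast_iff]
    exact hpj
  have h1 : ((D M (g ^ j) : ℤ) : ZMod p) = ((D M g : ℤ) : ZMod p) := by
    have e1 := ZMod.trace_pow_card ((M * P X g).map (Int.castRingHom (ZMod p)))
    rw [ZMod.pow_card] at e1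
    have e2 : ((M * P X g).map (Int.castRingHom (ZMod p))) ^ p =
        (M * P X (g ^ j)).map (Int.castRingHom (ZMod p)) := by
      rw [← map_pow', (comm_of_inv hM g).mul_pow, map_mul', map_pow',
        hB p (by omega) hpp, ← P_pow, hgp, map_mul']
    rw [e2] at e1
    rw [D_eq, D_eq]
    have e3 : ∀ N : Matrix X X ℤ, ((trace N : ℤ) : ZMod p) =
        trace (N.map (Int.castRingHom (ZMod p))) := by
      intro N
      simp [trace, Matrix.diag]
    rw [e3, e3, e1]
  rw [← sub_eq_zero, ← Int.cast_sub, ZMod.intCast_zmod_eq_zero_iff_dvd] at h1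
  have h2 : D M (g ^ j) - D M g = 0 := by
    by_contra hne
    have h0 : 0 < (D M (g ^ j) - D M g).natAbs := Int.natAbs_pos.mpr hne
    have h3 : p ∣ (D M (g ^ j) - D M g).natAbs := by
      rw [← Int.natCast_dvd]
      exact h1
    have h4 := Nat.le_of_dvd h0 h3
    omega
  linarith

theorem D_zinv {M : Matrix X X ℤ} (hM : ∀ (g : G) (x y : X), M (g • x) (g • y) = M x y)
    (hF : Frob M) : ZInv (fun g : G => (D M g : ℚ)) := by
  intro g g' h
  have hg' : g' ∈ Subgroup.zpowers g := h ▸ Subgroup.mem_zpowers g'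
  rw [← mem_powers_iff_mem_zpowers, Submonoid.mem_powers_iff] at hg'
  obtain ⟨i, hi⟩ := hg'
  have ho : orderOf g' = orderOf g := by
    rw [← Nat.card_zpowers, ← Nat.card_zpowers, h]
  have hco : i.Coprime (orderOf g) := by
    rw [Nat.coprime_comm]
    by_contra hne
    have h1 : orderOf (g ^ i) = orderOf g / (orderOf g).gcd i := orderOf_pow g
    rw [hi, ho] at h1
    have h3 : 0 < orderOf g := orderOf_pos g
    have h4 : 0 < (orderOf g).gcd i := Nat.gcd_pos_of_pos_left _ h3
    have h5 : 1 < (orderOf g).gcd i := lt_of_le_of_ne h4 (fun h => hne h.symm)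
    have h6 := Nat.div_lt_self h3 h5
    omega
  simp only
  rw [← hi, D_pow hM hF g hco]

end Pool.Agent.K4H54.CZ2
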